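import Mathlib

/-!
# A path of nondegenerate forms keeps definiteness on the orthogonal complement
-/

namespace Pool.Agent.KD

open Matrix Set

section

variable {m n : Type*} [Fintype m] [DecidableEq m] [Fintype n] [DecidableEq n]

/-- Positivity on the complement. -/
def PosC (Q : Matrix m m ℝ) (M : Matrix m n ℝ) : Prop :=
  ∀ u : m → ℝ, (Mᵀ * Q) *ᵥ u = 0 → u ≠ 0 → 0 < u ⬝ᵥ (Q *ᵥ u)

theorem isClosed_not {Q : ℝ → Matrix m m ℝ} {M : ℝ → Matrix m n ℝ} (hQ : Continuous Q)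
    (hM : Continuous M) : IsClosed {t : ℝ | t ∈ Icc (0 : ℝ) 1 ∧ ¬ PosC (Q t) (M t)} := by
  let C : Set (ℝ × (m → ℝ)) := {p | p.1 ∈ Icc (0 : ℝ) 1 ∧ p.2 ∈ Metric.sphere (0 : m → ℝ) 1 ∧
    ((M p.1)ᵀ * Q p.1) *ᵥ p.2 = 0 ∧ p.2 ⬝ᵥ (Q p.1 *ᵥ p.2) ≤ 0}
  have hc1 : Continuous (fun p : ℝ × (m → ℝ) => ((M p.1)ᵀ * Q p.1) *ᵥ p.2) := by
    have h1 : Continuous (fun p : ℝ × (m → ℝ) => (M p.1)ᵀ * Q p.1) :=
      ((hM.comp continuous_fst).matrix_transpose).matrix_mul (hQ.comp continuous_fst)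
    exact h1.matrix_mulVec continuous_snd
  have hc2 : Continuous (fun p : ℝ × (m → ℝ) => p.2 ⬝ᵥ (Q p.1 *ᵥ p.2)) := by
    have h1 : Continuous (fun p : ℝ × (m → ℝ) => Q p.1 *ᵥ p.2) :=
      (hQ.comp continuous_fst).matrix_mulVec continuous_snd
    exact continuous_snd.dotProduct h1
  have hC : IsCompact C := by
    have hK : IsCompact (Icc (0 : ℝ) 1 ×ˢ Metric.sphere (0 : m → ℝ) 1) :=
      isCompact_Icc.prod (isCompact_sphere _ _)
    have hcl : IsClosed ({p : ℝ × (m → ℝ) | ((M p.1)ᵀ * Q p.1) *ᵥ p.2 = 0} ∩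
        {p | p.2 ⬝ᵥ (Q p.1 *ᵥ p.2) ≤ 0}) :=
      (isClosed_eq hc1 continuous_const).inter (isClosed_le hc2 continuous_const)
    have := hK.inter_right hcl
    convert this using 1
    ext p
    simp only [C, mem_setOf_eq, mem_inter_iff, mem_prod]
    tauto
  have hI : {t : ℝ | t ∈ Icc (0 : ℝ) 1 ∧ ¬ PosC (Q t) (M t)} = Prod.fst '' C := by
    ext t
    simp only [mem_setOf_eq, mem_image, Prod.exists, exists_and_right, exists_eq_right, C]
    constructor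
    · rintro ⟨ht, hP⟩
      rw [PosC] at hP
      push Not at hP
      obtain ⟨u, hu, hu0, hq⟩ := hP
      have hn : 0 < ‖u‖ := norm_pos_iff.2 hu0
      refine ⟨‖u‖⁻¹ • u, ht, ?_, ?_, ?_⟩
      · rw [mem_sphere_zero_iff_norm, norm_smul, norm_inv, norm_norm,
          inv_mul_cancel₀ hn.ne']
      · rw [Matrix.mulVec_smul, hu, smul_zero]
      · rw [Matrix.mulVec_smul, dotProduct_smul, smul_dotProduct, smul_eq_mul, smul_eq_mul,
          ← mul_assoc]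
        exact mul_nonpos_of_nonneg_of_nonpos (by positivity) hq
    · rintro ⟨u, ht, hs, hu, hq⟩
      refine ⟨ht, fun hP => ?_⟩
      have hu0 : u ≠ 0 := by
        rintro rfl
        rw [mem_sphere_zero_iff_norm, norm_zero] at hs
        exact zero_ne_one hs
      exact absurd (hP u hu hu0) (not_lt.2 hq)
  rw [hI]
  exact (hC.image continuous_fst).isClosed

/-- If positivity fails, the form takes a negative value on the complement. -/
theorem exists_neg {Q : Matrix m m ℝ} {M : Matrix m n ℝ} (hs : Qᵀ = Q) (hd : Q.det ≠ 0)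
    (hd' : (Mᵀ * Q * M).det ≠ 0) (h : ¬ PosC Q M) :
    ∃ u : m → ℝ, (Mᵀ * Q) *ᵥ u = 0 ∧ u ⬝ᵥ (Q *ᵥ u) < 0 := by
  by_contra hcon
  push Not at hcon
  apply h
  intro u hu hu0
  refine lt_of_le_of_ne (hcon u hu) (fun h0 => hu0 ?_)
  have hsym : ∀ v w : m → ℝ, v ⬝ᵥ (Q *ᵥ w) = w ⬝ᵥ (Q *ᵥ v) := by
    intro v w
    rw [dotProduct_mulVec, ← mulVec_transpose, hs, dotProduct_comm]
  -- `u` is orthogonal to the complement
  have h1 : ∀ v : m → ℝ, (Mᵀ * Q) *ᵥ v = 0 → u ⬝ᵥ (Q *ᵥ v) = 0 := by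
    intro v hv
    by_contra hne
    have h2 : ∀ s : ℝ, 0 ≤ 2 * s * (u ⬝ᵥ (Q *ᵥ v)) + s ^ 2 * (v ⬝ᵥ (Q *ᵥ v)) := by
      intro s
      have h3 := hcon (u + s • v) (by
        rw [Matrix.mulVec_add, Matrix.mulVec_smul, hu, hv, smul_zero, add_zero])
      rw [Matrix.mulVec_add, Matrix.mulVec_smul, dotProduct_add, add_dotProduct,
        add_dotProduct, dotProduct_smul, dotProduct_smul, smul_dotProduct, smul_dotProduct,
        ← h0, hsym v u] at h3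
      simp only [smul_eq_mul] at h3
      nlinarith
    set b := u ⬝ᵥ (Q *ᵥ v)
    set c := v ⬝ᵥ (Q *ᵥ v)
    have hc : 0 ≤ c := hcon v hv
    have h4 := h2 (-b / (c + 1))
    have hc1 : 0 < c + 1 := by linarith
    have h5 : 2 * (-b / (c + 1)) * b + (-b / (c + 1)) ^ 2 * c =
        -(b ^ 2 * (c + 2)) / (c + 1) ^ 2 := by
      field_simp
      ring
    rw [h5] at h4
    have h6 : 0 < b ^ 2 * (c + 2) := mul_pos (by positivity) (by linarith)
    have h7 : -(b ^ 2 * (c + 2)) / (c + 1) ^ 2 < 0 :=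
      div_neg_of_neg_of_pos (by linarith) (by positivity)
    linarith
  -- so it is orthogonal to everything
  have h2 : ∀ w : m → ℝ, u ⬝ᵥ (Q *ᵥ w) = 0 := by
    intro w
    set S := Mᵀ * Q * M with hS
    set y := S⁻¹ *ᵥ ((Mᵀ * Q) *ᵥ w) with hy
    have hSy : S *ᵥ y = (Mᵀ * Q) *ᵥ w := by
      rw [hy, Matrix.mulVec_mulVec, Matrix.mul_nonsing_inv _ (isUnit_iff_ne_zero.2 hd'),
        Matrix.one_mulVec]
    have hv : (Mᵀ * Q) *ᵥ (w - M *ᵥ y) = 0 := by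
      rw [Matrix.mulVec_sub, Matrix.mulVec_mulVec, ← hS, hSy, sub_self]
    have h3 := h1 _ hv
    rw [Matrix.mulVec_sub, dotProduct_sub] at h3
    have h4 : u ⬝ᵥ (Q *ᵥ (M *ᵥ y)) = 0 := by
      rw [hsym u, ← vecMul_transpose, ← dotProduct_mulVec, Matrix.mulVec_mulVec, hu,
        dotProduct_zero]
    linarith
  have h3 : Q *ᵥ u = 0 := by
    rw [← dotProduct_self_eq_zero]
    have := h2 (Q *ᵥ u)
    rw [hsym] at this
    exact this
  by_contra hne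
  exact hd (Matrix.exists_mulVec_eq_zero_iff.1 ⟨u, hne, h3⟩)

theorem isClosed_pos {Q : ℝ → Matrix m m ℝ} {M : ℝ → Matrix m n ℝ} (hQ : Continuous Q)
    (hM : Continuous M) (hs : ∀ t, (Q t)ᵀ = Q t) (hd : ∀ t ∈ Icc (0 : ℝ) 1, (Q t).det ≠ 0)
    (hd' : ∀ t ∈ Icc (0 : ℝ) 1, ((M t)ᵀ * Q t * M t).det ≠ 0) :
    IsClosed {t : ℝ | t ∈ Icc (0 : ℝ) 1 ∧ PosC (Q t) (M t)} := by
  rw [← closure_subset_iff_isClosed]
  intro t ht
  have htI : t ∈ Icc (0 : ℝ) 1 := by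
    have := closure_mono (fun s (hs : s ∈ {t : ℝ | t ∈ Icc (0 : ℝ) 1 ∧ PosC (Q t) (M t)}) =>
      hs.1) ht
    rwa [isClosed_Icc.closure_eq] at this
  refine ⟨htI, ?_⟩
  by_contra hP
  obtain ⟨u, hu, hneg⟩ := exists_neg (hs t) (hd t htI) (hd' t htI) hP
  -- the moving vector
  let S : ℝ → Matrix n n ℝ := fun s => (M s)ᵀ * Q s * M s
  have hMt : Continuous fun s => (M s)ᵀ := hM.matrix_transpose
  have hMQ : Continuous fun s => (M s)ᵀ * Q s := hMt.matrix_mul hQ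
  have hS : Continuous S := hMQ.matrix_mul hM
  let v : ℝ → m → ℝ := fun s => u - M s *ᵥ ((S s)⁻¹ *ᵥ (((M s)ᵀ * Q s) *ᵥ u))
  have hSinv : ContinuousAt (fun s => (S s)⁻¹) t := by
    have h1 : (fun s => (S s)⁻¹) = fun s => (S s).det⁻¹ • (S s).adjugate := by
      funext s
      rw [Matrix.inv_def, Ring.inverse_eq_inv']
    rw [h1]
    exact (hS.matrix_det.continuousAt.inv₀ (hd' t htI)).smul hS.matrix_adjugate.continuousAt
  have hv : ContinuousAt v t := by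
    have h2 : Continuous fun s => ((M s)ᵀ * Q s) *ᵥ u := hMQ.matrix_mulVec continuous_const
    have h3 : ContinuousAt (fun s => (S s)⁻¹ *ᵥ (((M s)ᵀ * Q s) *ᵥ u)) t := by
      have h4 : Continuous (fun p : Matrix n n ℝ × (n → ℝ) => p.1 *ᵥ p.2) :=
        continuous_fst.matrix_mulVec continuous_snd
      exact h4.continuousAt.comp (f := fun s => ((S s)⁻¹, ((M s)ᵀ * Q s) *ᵥ u))
        (hSinv.prodMk h2.continuousAt)
    have h5 : ContinuousAt (fun s => M s *ᵥ ((S s)⁻¹ *ᵥ (((M s)ᵀ * Q s) *ᵥ u))) t := by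
      have h4 : Continuous (fun p : Matrix m n ℝ × (n → ℝ) => p.1 *ᵥ p.2) :=
        continuous_fst.matrix_mulVec continuous_snd
      exact h4.continuousAt.comp
        (f := fun s => (M s, (S s)⁻¹ *ᵥ (((M s)ᵀ * Q s) *ᵥ u)))
        (hM.continuousAt.prodMk h3)
    exact continuousAt_const.sub h5
  have hvt : v t = u := by
    simp only [v, hu, Matrix.mulVec_zero, sub_zero]
  have hq : ContinuousAt (fun s => v s ⬝ᵥ (Q s *ᵥ v s)) t := by
    have h4 : Continuous (fun p : (m → ℝ) × Matrix m m ℝ => p.1 ⬝ᵥ (p.2 *ᵥ p.1)) :=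
      continuous_fst.dotProduct (continuous_snd.matrix_mulVec continuous_fst)
    exact h4.continuousAt.comp (f := fun s => (v s, Q s)) (hv.prodMk hQ.continuousAt)
  have hev : ∀ᶠ s in nhds t, v s ⬝ᵥ (Q s *ᵥ v s) < 0 := by
    apply hq.eventually_lt_const
    show v t ⬝ᵥ (Q t *ᵥ v t) < 0
    rw [hvt]
    exact hneg
  obtain ⟨s, hs1, hs2⟩ := (mem_closure_iff_nhds.1 ht) _ hev
  obtain ⟨hsI, hsP⟩ := hs2
  have hs1' : v s ⬝ᵥ (Q s *ᵥ v s) < 0 := hs1
  have hvs : ((M s)ᵀ * Q s) *ᵥ v s = 0 := by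
    simp only [v]
    rw [Matrix.mulVec_sub, Matrix.mulVec_mulVec, Matrix.mulVec_mulVec]
    have : (M s)ᵀ * Q s * M s * (S s)⁻¹ = 1 :=
      Matrix.mul_nonsing_inv _ (isUnit_iff_ne_zero.2 (hd' s hsI))
    rw [this, Matrix.one_mulVec, sub_self]
  by_cases hv0 : v s = 0
  · rw [hv0] at hs1'
    simp at hs1'
  · exact absurd (hsP _ hvs hv0) (not_lt.2 hs1'.le)

/-- Definiteness is kept along the path. -/
theorem conn {Q : ℝ → Matrix m m ℝ} {M : ℝ → Matrix m n ℝ} (hQ : Continuous Q)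
    (hM : Continuous M) (hs : ∀ t, (Q t)ᵀ = Q t) (hd : ∀ t ∈ Icc (0 : ℝ) 1, (Q t).det ≠ 0)
    (hd' : ∀ t ∈ Icc (0 : ℝ) 1, ((M t)ᵀ * Q t * M t).det ≠ 0) (h0 : PosC (Q 0) (M 0)) :
    PosC (Q 1) (M 1) := by
  by_contra h1
  have hcl := isPreconnected_closed_iff.1 (isPreconnected_Icc (a := (0 : ℝ)) (b := 1))
    _ _ (isClosed_pos hQ hM hs hd hd') (isClosed_not hQ hM) (by
      intro t ht
      by_cases hP : PosC (Q t) (M t)
      · exact Or.inl ⟨ht, hP⟩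
      · exact Or.inr ⟨ht, hP⟩)
    ⟨0, by simp, by simp, h0⟩ ⟨1, by simp, by simp, h1⟩
  obtain ⟨t, _, ht1, ht2⟩ := hcl
  exact ht2.2 ht1.2

end

end Pool.Agent.KD
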