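import Mathlib

/-!
# Mixed Hodge-Riemann relations for a functional

`R` is a commutative algebra over the real numbers with graded pieces `G i`; `D` is a linear
functional; `K` is a set of elements of degree one (a convex cone).
-/

namespace Pool.Agent.KD

variable {R : Type*} [CommRing R] [Algebra ℝ R]

/-- The graded pieces. -/
structure Grd (G : ℕ → Submodule ℝ R) : Prop where
  one : (1 : R) ∈ G 0
  mul : ∀ i j a b, a ∈ G i → b ∈ G j → a * b ∈ G (i + j)
  fin : ∀ i, FiniteDimensional ℝ (G i)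

/-- A convex cone of elements of degree one. -/
structure Cone1 (G : ℕ → Submodule ℝ R) (K : Set R) : Prop where
  deg : ∀ x ∈ K, x ∈ G 1
  add : ∀ x ∈ K, ∀ y ∈ K, x + y ∈ K
  smul : ∀ x ∈ K, ∀ c : ℝ, 0 < c → c • x ∈ K

/-- `b` is a product of `r` elements of `K`. -/
inductive KP (K : Set R) : ℕ → R → Prop
  | one : KP K 0 1
  | mul : ∀ r b x, KP K r b → x ∈ K → KP K (r + 1) (b * x)

/-- The mixed Hodge-Riemann relations in dimension `N`. -/
def HR (G : ℕ → Submodule ℝ R) (K : Set R) (N : ℕ) (D : R →ₗ[ℝ] ℝ) : Prop :=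
  ∀ m r B l u, r + 2 * m = N → KP K r B → l ∈ K → u ∈ G m →
    (∀ j, j + 1 = m → ∀ v ∈ G j, D (B * l * u * v) = 0) →
    0 ≤ (-1 : ℝ) ^ m * D (B * u * u) ∧
      (D (B * u * u) = 0 → ∀ v ∈ G (r + m), D (u * v) = 0)

/-- The functional `f ↦ D (x f)`. -/
noncomputable def res (D : R →ₗ[ℝ] ℝ) (x : R) : R →ₗ[ℝ] ℝ := D ∘ₗ LinearMap.mulLeft ℝ x

theorem res_apply (D : R →ₗ[ℝ] ℝ) (x f : R) : res D x f = D (x * f) := rfl

end Pool.Agent.KD
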