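import Pool.Agent.KD.Norm

/-!
# Uniform inequalities for the norms
-/

namespace Pool.Agent.KD

variable {R : Type*} [CommRing R] [Algebra ℝ R]

/-- The constant in the comparison of norms. -/
noncomputable def cC : ℕ → ℝ
  | 0 => 1
  | m + 1 => 1 + 12 * cC m

theorem cC_ge (m : ℕ) : 1 ≤ cC m := by
  induction m with
  | zero => exact le_refl 1
  | succ m ih => simp only [cC]; linarith

theorem sgn_sq (m : ℕ) : ((-1 : ℝ) ^ m) ^ 2 = 1 := by
  rw [← pow_mul, mul_comm, pow_mul]
  norm_num

theorem sgn_mul (m : ℕ) : (-1 : ℝ) ^ m * (-1 : ℝ) ^ m = 1 := by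
  rw [← sq, sgn_sq]

section

variable {G : ℕ → Submodule ℝ R} {K : Set R} {N : ℕ} {D : R →ₗ[ℝ] ℝ} {l : R}

theorem sgn_le_nrm (hG : Grd G) (hK : Cone1 G K) (hD : HR G K N D) (hl : l ∈ K) {m r : ℕ}
    {B u : R} (hr : r + 2 * m = N) (hB : KP K r B) (hu : u ∈ G m) (j : ℕ) :
    (-1 : ℝ) ^ j * D (B * u * u) ≤ nrm G D l m B u := by
  have h1 := abs_le_nrm hG hK hD hl hr hB hu
  have h2 : |(-1 : ℝ) ^ j * D (B * u * u)| ≤ nrm G D l m B u := by
    rw [abs_mul, abs_pow, abs_neg, abs_one, one_pow, one_mul]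
    exact h1
  exact (le_abs_self _).trans h2

/-- `O` from `C`. -/
theorem O_of_C (hG : Grd G) (hK : Cone1 G K) (hD : HR G K N D) (hl : l ∈ K) {m : ℕ}
    (hC : ∀ (r : ℕ) (B b z : R), r + 1 + 2 * m = N → KP K r B → b ∈ K → l - b ∈ K → z ∈ G m →
      nrm G D l m (B * b) z ≤ cC m * nrm G D l m (B * l) z)
    {r : ℕ} {B b w : R} (hr : r + 2 * (m + 1) = N) (hB : KP K r B) (hb : b ∈ K)
    (hlb : l - b ∈ K) (hw : w ∈ G m) :
    nrm G D l (m + 1) B (b * w) ≤ 3 * cC m * nrm G D l m (B * b * l) w := by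
  have hBb : KP K (r + 1) (B * b) := KP.mul _ _ b hB hb
  have hBbb : KP K (r + 2) (B * b * b) := KP.mul _ _ b hBb hb
  have hBbl : KP K (r + 2) (B * b * l) := KP.mul _ _ l hBb hl
  have hBl : KP K (r + 1) (B * l) := KP.mul _ _ l hB hl
  have hBll : KP K (r + 2) (B * l * l) := KP.mul _ _ l hBl hl
  have hbw : b * w ∈ G (m + 1) := by
    have := hG.mul 1 m b w (hK.deg b hb) hw
    rwa [add_comm 1 m] at this
  have n0 := nrm_nonneg hG hK hD hl m (r + 2) (B * b * l) w (by omega) hBbl hw
  have c1 := cC_ge m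
  have h1 : (-1 : ℝ) ^ (m + 1) * D (B * (b * w) * (b * w)) ≤
      cC m * nrm G D l m (B * b * l) w := by
    have e1 := sgn_le_nrm hG hK hD hl (r := r + 2) (by omega) hBbb hw (m + 1)
    have e2 := hC (r + 1) (B * b) b w (by omega) hBb hb hlb hw
    have e3 : B * (b * w) * (b * w) = B * b * b * w * w := by ring
    rw [e3]
    linarith
  have h2 := nrm_le hG hK hD hl hr hB hbw (M := cC m * nrm G D l m (B * b * l) w)
    (mul_nonneg (by linarith) n0) (by
      intro v hv
      have e1 := nrm_cs hG hK hD hl m (r + 2) (B * b * l) w v (by omega) hBbl hw hv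
      have e2 := hC (r + 1) (B * l) b v (by omega) hBl hb hlb hv
      have e3 : B * l * (b * w) * v = B * b * l * w * v := by ring
      have e4 : B * l * b = B * b * l := by ring
      rw [e4] at e2
      rw [e3]
      calc D (B * b * l * w * v) ^ 2 ≤ nrm G D l m (B * b * l) w * nrm G D l m (B * b * l) v := e1
        _ ≤ nrm G D l m (B * b * l) w * (cC m * nrm G D l m (B * l * l) v) :=
          mul_le_mul_of_nonneg_left e2 n0
        _ = _ := by ring)
  linarith

/-- The comparison of the norms for different classes. -/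
theorem C_ineq (hG : Grd G) (hK : Cone1 G K) (hD : HR G K N D) (hl : l ∈ K) (m : ℕ) :
    ∀ (r : ℕ) (B b z : R), r + 1 + 2 * m = N → KP K r B → b ∈ K → l - b ∈ K → z ∈ G m →
      nrm G D l m (B * b) z ≤ cC m * nrm G D l m (B * l) z := by
  induction m with
  | zero =>
    intro r B b z hr hB hb hlb hz
    simp only [nrm, cC, one_mul]
    have h1 := (hD 0 (r + 1) (B * (l - b)) l z (by omega) (KP.mul _ _ _ hB hlb) hl hz
      (fun j hj => by omega)).1
    have h2 : B * (l - b) * z * z = B * l * z * z - B * b * z * z := by ring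
    rw [h2, map_sub] at h1
    simp only [pow_zero, one_mul] at h1
    linarith
  | succ m ih =>
    intro r B b z hr hB hb hlb hz
    have hBb : KP K (r + 1) (B * b) := KP.mul _ _ b hB hb
    have hBc : KP K (r + 1) (B * (l - b)) := KP.mul _ _ _ hB hlb
    have hBl : KP K (r + 1) (B * l) := KP.mul _ _ l hB hl
    have nz := nrm_nonneg hG hK hD hl (m + 1) (r + 1) (B * l) z (by omega) hBl hz
    have c1 := cC_ge m
    -- the estimate of the pairing with `b v`
    have key : ∀ b' ∈ K, l - b' ∈ K → ∀ v ∈ G m, D (B * b' * l * z * v) ^ 2 ≤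
        (3 * cC m * nrm G D l (m + 1) (B * l) z) * nrm G D l m (B * b' * l * l) v := by
      intro b' hb' hlb' v hv
      have hbv : b' * v ∈ G (m + 1) := by
        have := hG.mul 1 m b' v (hK.deg b' hb') hv
        rwa [add_comm 1 m] at this
      have e1 := nrm_cs hG hK hD hl (m + 1) (r + 1) (B * l) z (b' * v) (by omega) hBl hz hbv
      have e2 := O_of_C hG hK hD hl ih (r := r + 1) (by omega) hBl hb' hlb' hv
      have e3 : B * l * z * (b' * v) = B * b' * l * z * v := by ring
      have e4 : B * l * b' * l = B * b' * l * l := by ring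
      rw [e3] at e1
      rw [e4] at e2
      calc D (B * b' * l * z * v) ^ 2 ≤
          nrm G D l (m + 1) (B * l) z * nrm G D l (m + 1) (B * l) (b' * v) := e1
        _ ≤ nrm G D l (m + 1) (B * l) z * (3 * cC m * nrm G D l m (B * b' * l * l) v) :=
          mul_le_mul_of_nonneg_left e2 nz
        _ = _ := by ring
    have hM : 0 ≤ 3 * cC m * nrm G D l (m + 1) (B * l) z :=
      mul_nonneg (by linarith) nz
    have h1 := nrm_le hG hK hD hl (r := r + 1) (by omega) hBb hz hM (key b hb hlb)
    have hlc : l - (l - b) ∈ K := by rwa [sub_sub_cancel]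
    have h2 := nrm_le hG hK hD hl (r := r + 1) (by omega) hBc hz hM (key (l - b) hlb hlc)
    have h3 := nrm_nonneg hG hK hD hl (m + 1) (r + 1) (B * (l - b)) z (by omega) hBc hz
    have h4 := sgn_le_nrm hG hK hD hl (r := r + 1) (by omega) hBl hz (m + 1)
    have h5 : B * l * z * z = B * b * z * z + B * (l - b) * z * z := by ring
    rw [h5, map_add, mul_add] at h4
    simp only [cC]
    linarith

theorem O_ineq (hG : Grd G) (hK : Cone1 G K) (hD : HR G K N D) (hl : l ∈ K) {m r : ℕ}
    {B b w : R} (hr : r + 2 * (m + 1) = N) (hB : KP K r B) (hb : b ∈ K)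
    (hlb : l - b ∈ K) (hw : w ∈ G m) :
    nrm G D l (m + 1) B (b * w) ≤ 3 * cC m * nrm G D l m (B * b * l) w :=
  O_of_C hG hK hD hl (C_ineq hG hK hD hl m) hr hB hb hlb hw

/-- Products of elements `b` of `K` with `l - b ∈ K`. -/
inductive KQ (K : Set R) (l : R) : ℕ → R → Prop
  | one : KQ K l 0 1
  | mul : ∀ r b x, KQ K l r b → x ∈ K → l - x ∈ K → KQ K l (r + 1) (b * x)

omit [Algebra ℝ R] in
theorem KQ.kp {r : ℕ} {b : R} (h : KQ K l r b) : KP K r b := by
  induction h with
  | one => exact KP.one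
  | mul r b x _ hx _ ih => exact KP.mul r b x ih hx

/-- The constant in `(H)`. -/
noncomputable def cH : ℕ → ℝ
  | 0 => 1
  | m + 1 => 3 * cC m * cH m

theorem cH_pos (m : ℕ) : 0 < cH m := by
  induction m with
  | zero => exact one_pos
  | succ m ih =>
    simp only [cH]
    have := cC_ge m
    positivity

theorem H_ineq (hG : Grd G) (hK : Cone1 G K) (hD : HR G K N D) (hl : l ∈ K) (m : ℕ) :
    ∀ (r : ℕ) (B b : R), r + 2 * m = N → KP K r B → KQ K l m b →
      nrm G D l m B b ≤ cH m * D (B * b * l ^ m) := by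
  induction m with
  | zero =>
    intro r B b hr hB hb
    cases hb
    simp [nrm, cH]
  | succ m ih =>
    intro r B b hr hB hb
    cases hb with
    | mul _ b x hb hx hlx =>
      have h1 := O_ineq hG hK hD hl hr hB hx hlx (hb.kp.deg hG hK)
      have h2 := ih (r + 2) (B * x * l) b (by omega) (KP.mul _ _ l (KP.mul _ _ x hB hx) hl) hb
      have e1 : x * b = b * x := mul_comm x b
      rw [e1] at h1
      have e2 : B * x * l * b * l ^ m = B * (b * x) * l ^ (m + 1) := by ring
      rw [e2] at h2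
      have c1 := cC_ge m
      calc nrm G D l (m + 1) B (b * x) ≤ 3 * cC m * nrm G D l m (B * x * l) b := h1
        _ ≤ 3 * cC m * (cH m * D (B * (b * x) * l ^ (m + 1))) :=
          mul_le_mul_of_nonneg_left h2 (by linarith)
        _ = _ := by simp only [cH]; ring

theorem C_iter (hG : Grd G) (hK : Cone1 G K) (hD : HR G K N D) (hl : l ∈ K) {m : ℕ} {w : R}
    (hw : w ∈ G m) {s : ℕ} {b : R} (hb : KQ K l s b) :
    ∀ (r : ℕ) (B : R), r + s + 2 * m = N → KP K r B →
      nrm G D l m (B * b) w ≤ cC m ^ s * nrm G D l m (B * l ^ s) w := by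
  induction hb with
  | one =>
    intro r B _ _
    simp
  | mul s b x hb hx hlx ih =>
    intro r B hr hB
    have h1 := C_ineq hG hK hD hl m (r + s) (B * b) x w (by omega) (hB.mul' hb.kp) hx hlx hw
    have h2 := ih (r + 1) (B * l) (by omega) (KP.mul _ _ l hB hl)
    have e1 : B * b * l = B * l * b := by ring
    have e2 : B * l * l ^ s = B * l ^ (s + 1) := by ring
    rw [e1] at h1
    rw [e2] at h2
    have c1 := cC_ge m
    rw [← mul_assoc]
    calc nrm G D l m (B * b * x) w ≤ cC m * nrm G D l m (B * l * b) w := h1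
      _ ≤ cC m * (cC m ^ s * nrm G D l m (B * l ^ (s + 1)) w) :=
        mul_le_mul_of_nonneg_left h2 (by linarith)
      _ = _ := by ring

/-- The inequality `(I)`. -/
theorem I_ineq (hG : Grd G) (hK : Cone1 G K) (hD : HR G K N D) (hl : l ∈ K) {m s : ℕ}
    (hN : s + 2 * m = N) {a b w : R} (ha : KQ K l m a) (hb : KQ K l s b) (hw : w ∈ G m) :
    D (a * b * w) ^ 2 ≤ cH m * cC m ^ s * D (a * b * l ^ m) * nrm G D l m (l ^ s) w := by
  have h1 := nrm_cs hG hK hD hl m s b a w hN hb.kp (ha.kp.deg hG hK) hw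
  have h2 := H_ineq hG hK hD hl m s b a hN hb.kp ha
  have h3 := C_iter hG hK hD hl hw hb 0 1 (by omega) KP.one
  rw [one_mul, one_mul] at h3
  have n1 := nrm_nonneg hG hK hD hl m s b a hN hb.kp (ha.kp.deg hG hK)
  have n2 := nrm_nonneg hG hK hD hl m s b w hN hb.kp hw
  have e1 : b * a * w = a * b * w := by ring
  have e2 : b * a * l ^ m = a * b * l ^ m := by ring
  rw [e1] at h1
  rw [e2] at h2
  have n3 : 0 ≤ cH m * D (a * b * l ^ m) := n1.trans h2
  calc D (a * b * w) ^ 2 ≤ nrm G D l m b a * nrm G D l m b w := h1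
    _ ≤ (cH m * D (a * b * l ^ m)) * (cC m ^ s * nrm G D l m (l ^ s) w) :=
      mul_le_mul h2 h3 n2 n3
    _ = _ := by ring

end

/-! ### Divisors -/

/-- The constants for the restriction. -/
noncomputable def cR : ℕ → ℝ
  | 0 => 1
  | m + 1 => 1 + 2 * cC (m + 1) + 2 * (1 + 2 * cC m + 2 * cR m)

theorem cR_ge (m : ℕ) : 1 ≤ cR m := by
  induction m with
  | zero => exact le_refl 1
  | succ m ih =>
    simp only [cR]
    have := cC_ge m
    have := cC_ge (m + 1)
    linarith

section

variable {G : ℕ → Submodule ℝ R} {K : Set R} {N : ℕ} {D : R →ₗ[ℝ] ℝ} {l x : R} {β : ℝ}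

/-- `(l + β x) z z` against the norm. -/
theorem shift_le (hG : Grd G) (hK : Cone1 G K) (hD : HR G K N D) (hl : l ∈ K)
    (h1 : l + β • x ∈ K) (h2 : l - β • x ∈ K) {m r : ℕ} {B z : R} (hr : r + 1 + 2 * m = N)
    (hB : KP K r B) (hz : z ∈ G m) (j : ℕ) :
    (-1 : ℝ) ^ j * D (B * (l + β • x) * z * z) ≤ 2 * cC m * nrm G D l m (B * l) z := by
  have hb : (1 / 2 : ℝ) • (l + β • x) ∈ K := hK.smul _ h1 _ (by norm_num)
  have hlb : l - (1 / 2 : ℝ) • (l + β • x) ∈ K := by
    have h3 : (1 / 2 : ℝ) • (l - β • x) ∈ K := hK.smul _ h2 _ (by norm_num)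
    have h4 : l - (1 / 2 : ℝ) • (l + β • x) = (1 / 2 : ℝ) • (l - β • x) := by module
    rwa [h4]
  have e1 := C_ineq hG hK hD hl m r B _ z hr hB hb hlb hz
  have e2 := sgn_le_nrm hG hK hD hl (r := r + 1) (by omega) (KP.mul _ _ _ hB hb) hz j
  have e3 : D (B * ((1 / 2 : ℝ) • (l + β • x)) * z * z) =
      (1 / 2) * D (B * (l + β • x) * z * z) := by
    rw [mul_smul_comm, smul_mul_assoc, smul_mul_assoc, map_smul, smul_eq_mul]
  rw [e3] at e2
  linarith

/-- From the restriction inequality in degree `m` to the Gysin inequality in degree `m + 1`. -/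
theorem Q_of_R (hG : Grd G) (hK : Cone1 G K) (hD : HR G K N D) (hl : l ∈ K) {N' : ℕ}
    (hN : N' + 1 = N) (hx : x ∈ G 1) (hDx : HR G K N' (res D x)) (hβ : 0 < β)
    (h1 : l + β • x ∈ K) (h2 : l - β • x ∈ K) {m : ℕ}
    (hR : ∀ (r : ℕ) (B z : R), r + 2 * m = N' → KP K r B → z ∈ G m →
      β * nrm G (res D x) l m B z ≤ cR m * nrm G D l m (B * l) z)
    {r : ℕ} {B v : R} (hr : r + 2 * (m + 1) = N) (hB : KP K r B) (hv : v ∈ G m) :
    nrm G D l (m + 1) B (β • (x * v)) ≤
      (1 + 2 * cC m + 2 * cR m) * (β * nrm G (res D x) l m (B * l) v) := by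
  have hBl : KP K (r + 1) (B * l) := KP.mul _ _ l hB hl
  have nv := nrm_nonneg hG hK hDx hl m (r + 1) (B * l) v (by omega) hBl hv
  have hxv : β • (x * v) ∈ G (m + 1) := by
    apply Submodule.smul_mem
    have := hG.mul 1 m x v hx hv
    rwa [add_comm 1 m] at this
  have c1 := cC_ge m
  have c2 := cR_ge m
  have e1 : (-1 : ℝ) ^ (m + 1) * D (B * (β • (x * v)) * (β • (x * v))) ≤
      β * ((1 + 2 * cC m) * nrm G (res D x) l m (B * l) v) := by
    have f1 := shift_le hG hK hDx hl h1 h2 (r := r) (by omega) hB hv (m + 1)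
    have f2 := sgn_le_nrm hG hK hDx hl (r := r + 1) (by omega) hBl hv m
    have f3 : B * (β • (x * v)) * (β • (x * v)) =
        β • (x * (B * (l + β • x) * v * v)) - β • (x * (B * l * v * v)) := by
      simp only [mul_add, add_mul, mul_smul_comm, smul_mul_assoc, smul_add, smul_smul]
      have g1 : x * (B * x * v * v) = B * (x * v) * (x * v) := by ring
      rw [g1]
      module
    rw [f3, map_sub, map_smul, map_smul, smul_eq_mul, smul_eq_mul]
    rw [res_apply] at f1 f2
    have f4 : (-1 : ℝ) ^ (m + 1) = - (-1 : ℝ) ^ m := by rw [pow_succ]; ring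
    have f5 : (-1 : ℝ) ^ (m + 1) * (β * D (x * (B * (l + β • x) * v * v)) -
        β * D (x * (B * l * v * v))) =
        β * ((-1 : ℝ) ^ (m + 1) * D (x * (B * (l + β • x) * v * v)) +
          (-1 : ℝ) ^ m * D (x * (B * l * v * v))) := by
      rw [f4]; ring
    rw [f5]
    apply mul_le_mul_of_nonneg_left _ hβ.le
    linarith
  have e2 := nrm_le hG hK hD hl hr hB hxv
    (M := cR m * (β * nrm G (res D x) l m (B * l) v))
    (mul_nonneg (by linarith) (mul_nonneg hβ.le nv)) (by
      intro w hw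
      have f1 := nrm_cs hG hK hDx hl m (r + 1) (B * l) v w (by omega) hBl hv hw
      have f2 := hR (r + 1) (B * l) w (by omega) hBl hw
      have f3 : D (B * l * (β • (x * v)) * w) = β * res D x (B * l * v * w) := by
        have g1 : B * l * (β • (x * v)) * w = β • (x * (B * l * v * w)) := by
          simp only [mul_smul_comm, smul_mul_assoc]
          congr 1
          ring
        rw [g1, map_smul, res_apply, smul_eq_mul]
      rw [f3, mul_pow]
      have nw := nrm_nonneg hG hK hDx hl m (r + 1) (B * l) w (by omega) hBl hw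
      calc β ^ 2 * res D x (B * l * v * w) ^ 2 ≤
          β ^ 2 * (nrm G (res D x) l m (B * l) v * nrm G (res D x) l m (B * l) w) :=
            mul_le_mul_of_nonneg_left f1 (sq_nonneg β)
        _ = β * nrm G (res D x) l m (B * l) v * (β * nrm G (res D x) l m (B * l) w) := by ring
        _ ≤ β * nrm G (res D x) l m (B * l) v * (cR m * nrm G D l m (B * l * l) w) :=
            mul_le_mul_of_nonneg_left f2 (mul_nonneg hβ.le nv)
        _ = _ := by ring)
  linarith

/-- The restriction inequality. -/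
theorem R_ineq (hG : Grd G) (hK : Cone1 G K) (hD : HR G K N D) (hl : l ∈ K) {N' : ℕ}
    (hN : N' + 1 = N) (hx : x ∈ G 1) (hDx : HR G K N' (res D x)) (hβ : 0 < β)
    (h1 : l + β • x ∈ K) (h2 : l - β • x ∈ K) (m : ℕ) :
    ∀ (r : ℕ) (B z : R), r + 2 * m = N' → KP K r B → z ∈ G m →
      β * nrm G (res D x) l m B z ≤ cR m * nrm G D l m (B * l) z := by
  induction m with
  | zero =>
    intro r B z hr hB hz
    simp only [nrm, cR, one_mul, res_apply]
    have e1 := (hD 0 (r + 1) (B * (l - β • x)) l z (by omega) (KP.mul _ _ _ hB h2) hl hz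
      (fun j hj => by omega)).1
    have e2 : B * (l - β • x) * z * z = B * l * z * z - β • (x * (B * z * z)) := by
      simp only [mul_sub, sub_mul, mul_smul_comm, smul_mul_assoc]
      congr 2
      ring
    rw [e2, map_sub, map_smul, smul_eq_mul] at e1
    simp only [pow_zero, one_mul] at e1
    linarith
  | succ m ih =>
    intro r B z hr hB hz
    have hBl : KP K (r + 1) (B * l) := KP.mul _ _ l hB hl
    have nz := nrm_nonneg hG hK hD hl (m + 1) (r + 1) (B * l) z (by omega) hBl hz
    have c1 := cC_ge m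
    have c2 := cR_ge m
    set Cq := 1 + 2 * cC m + 2 * cR m with hCq
    have hCq0 : 0 ≤ Cq := by linarith
    have e1 := nrm_le hG hK hDx hl hr hB hz
      (M := nrm G D l (m + 1) (B * l) z * Cq / β)
      (div_nonneg (mul_nonneg nz hCq0) hβ.le) (by
        intro v hv
        have hxv : β • (x * v) ∈ G (m + 1) := by
          apply Submodule.smul_mem
          have := hG.mul 1 m x v hx hv
          rwa [add_comm 1 m] at this
        have f1 := nrm_cs hG hK hD hl (m + 1) (r + 1) (B * l) z (β • (x * v)) (by omega)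
          hBl hz hxv
        have f2 := Q_of_R hG hK hD hl hN hx hDx hβ h1 h2 ih (r := r + 1) (by omega) hBl hv
        have f3 : D (B * l * z * (β • (x * v))) = β * res D x (B * l * z * v) := by
          have g1 : B * l * z * (β • (x * v)) = β • (x * (B * l * z * v)) := by
            simp only [mul_smul_comm]
            congr 1
            ring
          rw [g1, map_smul, res_apply, smul_eq_mul]
        rw [f3, mul_pow] at f1
        have f4 : β ^ 2 * res D x (B * l * z * v) ^ 2 ≤
            β ^ 2 * (nrm G D l (m + 1) (B * l) z * Cq / β *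
              nrm G (res D x) l m (B * l * l) v) := by
          calc β ^ 2 * res D x (B * l * z * v) ^ 2 ≤
              nrm G D l (m + 1) (B * l) z * nrm G D l (m + 1) (B * l) (β • (x * v)) := f1
            _ ≤ nrm G D l (m + 1) (B * l) z *
                (Cq * (β * nrm G (res D x) l m (B * l * l) v)) :=
              mul_le_mul_of_nonneg_left f2 nz
            _ = _ := by field_simp
        exact le_of_mul_le_mul_left f4 (by positivity))
    have e2 : β * ((-1 : ℝ) ^ (m + 1) * res D x (B * z * z)) ≤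
        (1 + 2 * cC (m + 1)) * nrm G D l (m + 1) (B * l) z := by
      have f1 := shift_le hG hK hD hl h1 h2 (m := m + 1) (r := r) (by omega) hB hz (m + 1)
      have f2 := sgn_le_nrm hG hK hD hl (m := m + 1) (r := r + 1) (by omega) hBl hz m
      have f3 : β * res D x (B * z * z) =
          D (B * (l + β • x) * z * z) - D (B * l * z * z) := by
        rw [res_apply, ← smul_eq_mul, ← map_smul, ← map_sub]
        congr 1
        simp only [mul_add, add_mul, mul_smul_comm, smul_mul_assoc]
        rw [add_sub_cancel_left]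
        congr 1
        ring
      have f4 : (-1 : ℝ) ^ (m + 1) = - (-1 : ℝ) ^ m := by rw [pow_succ]; ring
      have f5 : β * ((-1 : ℝ) ^ (m + 1) * res D x (B * z * z)) =
          (-1 : ℝ) ^ (m + 1) * D (B * (l + β • x) * z * z) +
            (-1 : ℝ) ^ m * D (B * l * z * z) := by
        have : β * ((-1 : ℝ) ^ (m + 1) * res D x (B * z * z)) =
          (-1 : ℝ) ^ (m + 1) * (β * res D x (B * z * z)) := by ring
        rw [this, f3, f4]
        ring
      rw [f5]
      linarith
    have e3 : β * nrm G (res D x) l (m + 1) B z ≤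
        β * ((-1 : ℝ) ^ (m + 1) * res D x (B * z * z) +
          2 * (nrm G D l (m + 1) (B * l) z * Cq / β)) :=
      mul_le_mul_of_nonneg_left e1 hβ.le
    have e4 : β * ((-1 : ℝ) ^ (m + 1) * res D x (B * z * z) +
          2 * (nrm G D l (m + 1) (B * l) z * Cq / β)) =
        β * ((-1 : ℝ) ^ (m + 1) * res D x (B * z * z)) +
          2 * (nrm G D l (m + 1) (B * l) z * Cq) := by
      field_simp
    rw [e4] at e3
    have e5 : cR (m + 1) = 1 + 2 * cC (m + 1) + 2 * Cq := rfl
    rw [e5]
    linarith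

/-- Corollary (E): classes supported on a divisor. -/
theorem E_ineq (hG : Grd G) (hK : Cone1 G K) (hD : HR G K N D) (hl : l ∈ K) {N' : ℕ}
    (hN : N' + 1 = N) (hx : x ∈ G 1) (hDx : HR G K N' (res D x)) (hβ : 0 < β)
    (h1 : l + β • x ∈ K) (h2 : l - β • x ∈ K) {m r : ℕ} (hr : r + 2 * m = N') {z v : R}
    {M : ℝ} (hM : 0 ≤ M) (hv : v ∈ G m)
    (hz : D (x * (z * v)) ^ 2 ≤ M * nrm G (res D x) l m (l ^ r) v) :
    D (β • (x * z) * v) ^ 2 ≤ (cR m * β * M) * nrm G D l m (l ^ (r + 1)) v := by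
  have e1 := R_ineq hG hK hD hl hN hx hDx hβ h1 h2 m r (l ^ r) v hr (KP.pow hl r) hv
  rw [← pow_succ] at e1
  have e2 : D (β • (x * z) * v) = β * D (x * (z * v)) := by
    rw [smul_mul_assoc, map_smul, smul_eq_mul, mul_assoc]
  rw [e2, mul_pow]
  calc β ^ 2 * D (x * (z * v)) ^ 2 ≤ β ^ 2 * (M * nrm G (res D x) l m (l ^ r) v) :=
      mul_le_mul_of_nonneg_left hz (sq_nonneg β)
    _ = (β * M) * (β * nrm G (res D x) l m (l ^ r) v) := by ring
    _ ≤ (β * M) * (cR m * nrm G D l m (l ^ (r + 1)) v) :=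
      mul_le_mul_of_nonneg_left e1 (mul_nonneg hβ.le hM)
    _ = _ := by ring

/-- Corollary (F): the sign of the form on a class which is almost primitive. -/
theorem F_ineq (hG : Grd G) (hK : Cone1 G K) (hD : HR G K N D) (hl : l ∈ K) {m r : ℕ}
    {B a : R} (hr : r + 2 * (m + 1) = N) (hB : KP K r B) (ha : a ∈ G (m + 1)) {M : ℝ}
    (hM : 0 ≤ M) (h : ∀ v ∈ G m, D (B * l * a * v) ^ 2 ≤ M * nrm G D l m (B * l * l) v) :
    -(2 * M) ≤ (-1 : ℝ) ^ (m + 1) * D (B * a * a) := by
  have e1 := nrm_le hG hK hD hl hr hB ha hM h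
  have e2 := nrm_nonneg hG hK hD hl (m + 1) r B a hr hB ha
  linarith

end

end Pool.Agent.KD
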