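import Pool.Agent.KD.Norm
import Pool.Agent.KD.Conn

/-!
# Mixed Hodge-Riemann relations from the ordinary ones
-/

namespace Pool.Agent.KD

open Matrix Set

variable {R : Type*} [CommRing R] [Algebra ℝ R]

/-- The ordinary Hodge-Riemann relations. -/
def OHR (G : ℕ → Submodule ℝ R) (K : Set R) (N : ℕ) (D : R →ₗ[ℝ] ℝ) : Prop :=
  ∀ m r l u, r + 2 * m = N → l ∈ K → u ∈ G m →
    (∀ j, j + 1 = m → ∀ v ∈ G j, D (l ^ r * l * u * v) = 0) →
    0 ≤ (-1 : ℝ) ^ m * D (l ^ r * u * u) ∧
      (D (l ^ r * u * u) = 0 → ∀ v ∈ G (r + m), D (u * v) = 0)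

/-- The elements `x i` generate. -/
def Gen {ι : Type*} [Fintype ι] (G : ℕ → Submodule ℝ R) (x : ι → R) : Prop :=
  ∀ j, ∀ v ∈ G (j + 1), ∃ w : ι → R, (∀ i, w i ∈ G j) ∧ v = ∑ i, x i * w i

/-- The elements of `K` are positive combinations of the `x i`. -/
def PosK {ι : Type*} [Fintype ι] (K : Set R) (x : ι → R) : Prop :=
  ∀ l ∈ K, ∃ a : ι → ℝ, (∀ i, 0 < a i) ∧ l = ∑ i, a i • x i

/-- The path of products. -/
theorem exists_path {G : ℕ → Submodule ℝ R} {K : Set R} (hK : Cone1 G K) {l : R} (hl : l ∈ K)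
    {r : ℕ} {B : R} (hB : KP K r B) :
    ∃ P : ℝ → R, P 0 = l ^ r ∧ P 1 = B ∧ (∀ t ∈ Icc (0 : ℝ) 1, KP K r (P t)) ∧
      ∀ D : R →ₗ[ℝ] ℝ, Continuous fun t => D (P t) := by
  induction hB with
  | one => exact ⟨fun _ => 1, by simp, rfl, fun _ _ => KP.one, fun D => continuous_const⟩
  | mul r b x hb hx ih =>
    obtain ⟨P, h0, h1, hP, hc⟩ := ih
    refine ⟨fun t => P t * ((1 - t) • l + t • x), ?_, ?_, ?_, ?_⟩
    · simp only [h0, sub_zero, one_smul, zero_smul, add_zero]
      rw [pow_succ]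
    · simp only [h1, sub_self, zero_smul, one_smul, zero_add]
    · intro t ht
      apply KP.mul _ _ _ (hP t ht)
      rcases ht.1.eq_or_lt with h | h
      · rw [← h]
        simpa using hl
      · rcases ht.2.eq_or_lt with h' | h'
        · rw [h']
          simpa using hx
        · exact hK.add _ (hK.smul _ hl _ (by linarith)) _ (hK.smul _ hx _ h)
    · intro D
      have h2 := hc (D ∘ₗ LinearMap.mulRight ℝ l)
      have h3 := hc (D ∘ₗ LinearMap.mulRight ℝ x)
      have h4 : (fun t => D (P t * ((1 - t) • l + t • x))) =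
          fun t => (1 - t) * D (P t * l) + t * D (P t * x) := by
        funext t
        rw [mul_add, map_add, mul_smul_comm, mul_smul_comm, map_smul, map_smul, smul_eq_mul,
          smul_eq_mul]
      rw [h4]
      exact ((continuous_const.sub continuous_id).mul h2).add (continuous_id.mul h3)

/-- A basis modulo the annihilator. -/
theorem exists_basis {G : ℕ → Submodule ℝ R} (hG : Grd G) (D : R →ₗ[ℝ] ℝ) (m s : ℕ) :
    ∃ (d : ℕ) (f : Fin d → R), (∀ i, f i ∈ G m) ∧
      (∀ u ∈ G m, ∃ c : Fin d → ℝ, ∀ v ∈ G s, D ((u - ∑ i, c i • f i) * v) = 0) ∧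
      ∀ c : Fin d → ℝ, (∀ v ∈ G s, D ((∑ i, c i • f i) * v) = 0) → c = 0 := by
  have := hG.fin m
  let A : Submodule ℝ (G m) :=
    { carrier := {u | ∀ v ∈ G s, D (u.1 * v) = 0}
      add_mem' := by
        intro a b ha hb v hv
        have h1 := ha v hv
        have h2 := hb v hv
        rw [Submodule.coe_add, add_mul, map_add, h1, h2, add_zero]
      zero_mem' := by
        intro v _
        simp
      smul_mem' := by
        intro c a ha v hv
        have h1 := ha v hv
        rw [Submodule.coe_smul, smul_mul_assoc, map_smul, h1, smul_zero] }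
  let b := Module.finBasis ℝ (G m ⧸ A)
  have hsurj := Submodule.mkQ_surjective A
  choose g hg using hsurj
  refine ⟨Module.finrank ℝ (G m ⧸ A), fun i => (g (b i)).1, fun i => (g (b i)).2, ?_, ?_⟩
  · intro u hu
    refine ⟨fun i => b.repr (A.mkQ ⟨u, hu⟩) i, ?_⟩
    have h1 : (⟨u, hu⟩ - ∑ i, b.repr (A.mkQ ⟨u, hu⟩) i • g (b i) : G m) ∈ A := by
      rw [← Submodule.Quotient.mk_eq_zero]
      show A.mkQ (⟨u, hu⟩ - ∑ i, b.repr (A.mkQ ⟨u, hu⟩) i • g (b i)) = 0
      rw [map_sub, map_sum]
      simp only [map_smul, hg]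
      rw [b.sum_repr, sub_self]
    intro v hv
    have h2 := h1 v hv
    simpa using h2
  · intro c hc
    have h1 : (∑ i, c i • g (b i) : G m) ∈ A := by
      intro v hv
      have := hc v hv
      simpa using this
    have h2 : ∑ i, c i • b i = 0 := by
      have h3 : A.mkQ (∑ i, c i • g (b i)) = 0 := (Submodule.Quotient.mk_eq_zero A).2 h1
      rw [map_sum] at h3
      simp only [map_smul, hg] at h3
      exact h3
    have h3 := Fintype.linearIndependent_iff.1 b.linearIndependent c h2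
    funext i
    exact h3 i

section

variable {ι : Type*} [Fintype ι] {G : ℕ → Submodule ℝ R} {K : Set R} {x : ι → R}

/-- The positive case: nonnegativity and the radical for products with at least one factor. -/
theorem step_rad (hG : Grd G) (hK : Cone1 G K) (hgen : Gen G x) (hpos : PosK K x)
    (hx1 : ∀ i, x i ∈ G 1) {N : ℕ} {D : R →ₗ[ℝ] ℝ} (hR : ∀ i, HR G K N (res D (x i)))
    {m r : ℕ} {B w : R} (hr : r + 2 * m = N + 1) (hB : KP K r B) (hw : w ∈ G m)
    (h : ∀ j, j + 1 = m → ∀ i, ∀ v ∈ G j, D (B * w * (x i * v)) = 0) :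
    (1 ≤ r → 0 ≤ (-1 : ℝ) ^ m * D (B * w * w)) ∧
      ((r = 0 ∧ ∀ v ∈ G m, D (B * w * v) = 0) ∨ (1 ≤ r ∧ D (B * w * w) = 0) →
        ∀ v ∈ G (r + m), D (w * v) = 0) := by
  cases hB with
  | one =>
    refine ⟨fun h1 => by omega, ?_⟩
    rintro (⟨_, h1⟩ | ⟨h1, _⟩)
    · intro v hv
      have := h1 v (by simpa using hv)
      simpa using this
    · omega
  | mul r b y hb hy =>
    obtain ⟨a, ha, hya⟩ := hpos y hy
    have key : ∀ i, 0 ≤ (-1 : ℝ) ^ m * D (x i * (b * w * w)) ∧
        (D (x i * (b * w * w)) = 0 → ∀ v ∈ G (r + m), D (x i * (w * v)) = 0) := by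
      intro i
      have h1 := hR i m r b y w (by omega) hb hy hw (by
        intro j hj v hv
        rw [res_apply]
        have h2 := h j hj i v hv
        rw [← h2]
        congr 1
        ring)
      simpa only [res_apply] using h1
    have hsum : D (b * y * w * w) = ∑ i, a i * D (x i * (b * w * w)) := by
      have h1 : b * y * w * w = ∑ i, a i • (x i * (b * w * w)) := by
        have h2 : b * y * w * w = y * (b * w * w) := by ring
        rw [h2, hya, Finset.sum_mul]
        simp only [smul_mul_assoc]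
      rw [h1, map_sum]
      simp only [map_smul, smul_eq_mul]
    have hsum2 : (-1 : ℝ) ^ m * D (b * y * w * w) =
        ∑ i, a i * ((-1 : ℝ) ^ m * D (x i * (b * w * w))) := by
      rw [hsum, Finset.mul_sum]
      apply Finset.sum_congr rfl
      intro i _
      ring
    refine ⟨fun _ => ?_, ?_⟩
    · rw [hsum2]
      exact Finset.sum_nonneg fun i _ => mul_nonneg (ha i).le (key i).1
    · rintro (⟨h1, _⟩ | ⟨_, h1⟩)
      · omega
      · intro v hv
        have hv' : v ∈ G (r + m + 1) := by rwa [show r + m + 1 = r + 1 + m by ring]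
        obtain ⟨z, hz, rfl⟩ := hgen _ _ hv'
        have h2 : ∀ i, D (x i * (b * w * w)) = 0 := by
          intro i
          have h3 : ∑ i, a i * ((-1 : ℝ) ^ m * D (x i * (b * w * w))) = 0 := by
            rw [← hsum2, h1, mul_zero]
          have h4 := (Finset.sum_eq_zero_iff_of_nonneg
            (fun i _ => mul_nonneg (ha i).le (key i).1)).1 h3 i (Finset.mem_univ i)
          rcases mul_eq_zero.1 h4 with h5 | h5
          · exact absurd h5 (ha i).ne'
          · rcases mul_eq_zero.1 h5 with h6 | h6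
            · exact absurd h6 (pow_ne_zero _ (by norm_num))
            · exact h6
        rw [Finset.mul_sum, map_sum]
        apply Finset.sum_eq_zero
        intro i _
        rw [← (key i).2 (h2 i) (z i) (hz i)]
        congr 1
        ring

/-- Mixed hard Lefschetz. -/
theorem step_hl (hG : Grd G) (hK : Cone1 G K) (hgen : Gen G x) (hpos : PosK K x)
    (hx1 : ∀ i, x i ∈ G 1) {N : ℕ} {D : R →ₗ[ℝ] ℝ} (hR : ∀ i, HR G K N (res D (x i)))
    {m r : ℕ} {B w : R} (hr : r + 2 * m = N + 1) (hB : KP K r B) (hw : w ∈ G m)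
    (h : ∀ v ∈ G m, D (B * w * v) = 0) : ∀ v ∈ G (r + m), D (w * v) = 0 := by
  have h1 := step_rad hG hK hgen hpos hx1 hR hr hB hw (by
    intro j hj i v hv
    apply h
    have := hG.mul 1 j _ _ (hx1 i) hv
    rwa [show 1 + j = m by omega] at this)
  apply h1.2
  rcases Nat.eq_zero_or_pos r with h0 | h0
  · exact Or.inl ⟨h0, h⟩
  · exact Or.inr ⟨h0, h w hw⟩

/-- The induction step. -/
theorem step_hr (hG : Grd G) (hK : Cone1 G K) (hgen : Gen G x) (hpos : PosK K x)
    (hx1 : ∀ i, x i ∈ G 1) {N : ℕ} {D : R →ₗ[ℝ] ℝ} (hR : ∀ i, HR G K N (res D (x i)))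
    (hO : OHR G K (N + 1) D) : HR G K (N + 1) D := by
  intro m r B l u hr hB hl hu hprim
  rcases Nat.eq_zero_or_pos m with hm | hm
  · -- degree zero
    subst hm
    rcases Nat.eq_zero_or_pos r with h0 | h0
    · omega
    · have h1 := step_rad hG hK hgen hpos hx1 hR hr hB hu (fun j hj => by omega)
      exact ⟨h1.1 h0, fun h2 => h1.2 (Or.inr ⟨h0, h2⟩)⟩
  obtain ⟨m, rfl⟩ : ∃ m', m = m' + 1 := ⟨m - 1, by omega⟩
  obtain ⟨P, hP0, hP1, hPK, hPc⟩ := exists_path hK hl hB
  obtain ⟨d, f, hf, hfs, hfi⟩ := exists_basis hG D (m + 1) (r + (m + 1))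
  obtain ⟨e, g, hg, hgs, hgi⟩ := exists_basis hG D m (r + 2 + m)
  have hlm : ∀ v ∈ G m, l * v ∈ G (m + 1) := by
    intro v hv
    have := hG.mul 1 m l v (hK.deg l hl) hv
    rwa [add_comm 1 m] at this
  -- the matrix of the multiplication by `l`
  have hM : ∀ j, ∃ c : Fin d → ℝ, ∀ v ∈ G (r + (m + 1)),
      D ((l * g j - ∑ i, c i • f i) * v) = 0 := fun j => hfs _ (hlm _ (hg j))
  choose c hc using hM
  let M : Matrix (Fin d) (Fin e) ℝ := Matrix.of fun i j => c j i
  let Q : ℝ → Matrix (Fin d) (Fin d) ℝ := fun t =>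
    Matrix.of fun i j => (-1 : ℝ) ^ (m + 1) * D (P t * f i * f j)
  have hQc : Continuous Q := by
    apply continuous_matrix
    intro i j
    have h1 := hPc (D ∘ₗ LinearMap.mulRight ℝ (f i * f j))
    have h2 : (fun t => Q t i j) = fun t => (-1 : ℝ) ^ (m + 1) *
        (D ∘ₗ LinearMap.mulRight ℝ (f i * f j)) (P t) := by
      funext t
      simp only [Q, Matrix.of_apply, LinearMap.comp_apply, LinearMap.mulRight_apply, mul_assoc]
    rw [h2]
    exact continuous_const.mul h1
  have hQs : ∀ t, (Q t)ᵀ = Q t := by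
    intro t
    ext i j
    simp only [Q, Matrix.transpose_apply, Matrix.of_apply]
    congr 2
    ring
  -- the form in coordinates
  let U : (Fin d → ℝ) → R := fun a => ∑ i, a i • f i
  let Y : (Fin e → ℝ) → R := fun a => ∑ i, a i • g i
  have hU : ∀ a, U a ∈ G (m + 1) := fun a =>
    Submodule.sum_mem _ fun i _ => Submodule.smul_mem _ _ (hf i)
  have hY : ∀ a, Y a ∈ G m := fun a =>
    Submodule.sum_mem _ fun i _ => Submodule.smul_mem _ _ (hg i)
  have hQU : ∀ t a i, (Q t *ᵥ a) i = (-1 : ℝ) ^ (m + 1) * D (P t * f i * U a) := by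
    intro t a i
    simp only [Matrix.mulVec, dotProduct, Q, Matrix.of_apply, U]
    rw [Finset.mul_sum, map_sum, Finset.mul_sum]
    apply Finset.sum_congr rfl
    intro j _
    rw [mul_smul_comm, map_smul, smul_eq_mul]
    ring
  have hQUU : ∀ t a b, b ⬝ᵥ (Q t *ᵥ a) = (-1 : ℝ) ^ (m + 1) * D (P t * U b * U a) := by
    intro t a b
    have h1 : P t * U b * U a = ∑ i, b i • (P t * f i * U a) := by
      generalize U a = z
      show P t * (∑ i, b i • f i) * z = ∑ i, b i • (P t * f i * z)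
      rw [Finset.mul_sum, Finset.sum_mul]
      simp only [mul_smul_comm, smul_mul_assoc]
    rw [h1, map_sum, Finset.mul_sum]
    simp only [dotProduct]
    apply Finset.sum_congr rfl
    intro i _
    rw [hQU, map_smul, smul_eq_mul]
    ring
  have hMU : ∀ a, ∀ v ∈ G (r + (m + 1)), D (U (M *ᵥ a) * v) = D (l * Y a * v) := by
    intro a v hv
    have h1 : U (M *ᵥ a) = ∑ j, a j • ∑ i, c j i • f i := by
      simp only [U, Matrix.mulVec, dotProduct, M, Matrix.of_apply, Finset.sum_smul,
        Finset.smul_sum, smul_smul]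
      rw [Finset.sum_comm]
      apply Finset.sum_congr rfl
      intro j _
      apply Finset.sum_congr rfl
      intro i _
      rw [mul_comm]
    have h2 : l * Y a = ∑ j, a j • (l * g j) := by
      simp only [Y, Finset.mul_sum, mul_smul_comm]
    rw [h1, h2]
    simp only [Finset.sum_mul, smul_mul_assoc, map_sum, map_smul, smul_eq_mul]
    apply Finset.sum_congr rfl
    intro j _
    have h3 := hc j v hv
    rw [sub_mul, map_sub] at h3
    have h4 : D (∑ i, c j i • (f i * v)) = D ((∑ i, c j i • f i) * v) := by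
      rw [Finset.sum_mul]
      simp only [smul_mul_assoc]
    have h5 : ∑ i, c j i * D (f i * v) = D (∑ i, c j i • (f i * v)) := by
      rw [map_sum]
      simp only [map_smul, smul_eq_mul]
    rw [h5, h4]
    have h6 : D ((∑ i, c j i • f i) * v) = D (l * g j * v) := by linarith
    rw [h6]
  have hMQ : ∀ t, t ∈ Icc (0 : ℝ) 1 → ∀ a b, b ⬝ᵥ ((Mᵀ * Q t) *ᵥ a) =
      (-1 : ℝ) ^ (m + 1) * D (P t * l * U a * Y b) := by
    intro t ht a b
    rw [← Matrix.mulVec_mulVec, Matrix.dotProduct_mulVec, Matrix.vecMul_transpose, hQUU]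
    congr 1
    have h1 := hMU b (P t * U a) (hG.mul r (m + 1) _ _ ((hPK t ht).deg hG hK) (hU a))
    have h2 : P t * U (M *ᵥ b) * U a = U (M *ᵥ b) * (P t * U a) := by ring
    have h3 : P t * l * U a * Y b = l * Y b * (P t * U a) := by ring
    rw [h2, h3, h1]
  -- the determinants
  have hd : ∀ t ∈ Icc (0 : ℝ) 1, (Q t).det ≠ 0 := by
    intro t ht h0
    obtain ⟨a, ha, hQa⟩ := Matrix.exists_mulVec_eq_zero_iff.2 h0
    apply ha
    apply hfi
    have h1 : ∀ i, D (P t * f i * U a) = 0 := by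
      intro i
      have h2 := congrFun hQa i
      rw [hQU] at h2
      rcases mul_eq_zero.1 h2 with h3 | h3
      · exact absurd h3 (pow_ne_zero _ (by norm_num))
      · exact h3
    have h2 : ∀ v ∈ G (m + 1), D (P t * U a * v) = 0 := by
      intro v hv
      obtain ⟨b, hb⟩ := hfs v hv
      have h3 := hb (P t * U a) (hG.mul r (m + 1) _ _ ((hPK t ht).deg hG hK) (hU a))
      have h4 : P t * U a * v = (v - ∑ i, b i • f i) * (P t * U a) +
          ∑ i, b i • (P t * f i * U a) := by
        rw [sub_mul, Finset.sum_mul]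
        have : ∀ i, b i • (P t * f i * U a) = b i • f i * (P t * U a) := by
          intro i
          rw [smul_mul_assoc]
          congr 1
          ring
        simp only [this]
        ring
      rw [h4, map_add, h3, map_sum, zero_add]
      apply Finset.sum_eq_zero
      intro i _
      rw [map_smul, h1, smul_zero]
    exact step_hl hG hK hgen hpos hx1 hR hr (hPK t ht) (hU a) h2
  have hd' : ∀ t ∈ Icc (0 : ℝ) 1, (Mᵀ * Q t * M).det ≠ 0 := by
    intro t ht h0
    obtain ⟨a, ha, hQa⟩ := Matrix.exists_mulVec_eq_zero_iff.2 h0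
    apply ha
    apply hgi
    have hPll : KP K (r + 2) (P t * l * l) := KP.mul _ _ _ (KP.mul _ _ _ (hPK t ht) hl) hl
    have h1 : ∀ b, D (P t * l * l * Y a * Y b) = 0 := by
      intro b
      have h2 : b ⬝ᵥ ((Mᵀ * Q t * M) *ᵥ a) = 0 := by rw [hQa, dotProduct_zero]
      rw [← Matrix.mulVec_mulVec, hMQ t ht] at h2
      have h3 : D (P t * l * U (M *ᵥ a) * Y b) = 0 := by
        rcases mul_eq_zero.1 h2 with h3 | h3
        · exact absurd h3 (pow_ne_zero _ (by norm_num))
        · exact h3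
      have h4 := hMU a (P t * l * Y b) (by
        have h5 : P t * l * Y b ∈ G (r + 1 + m) :=
          hG.mul (r + 1) m _ _ ((KP.mul _ _ _ (hPK t ht) hl).deg hG hK) (hY b)
        rwa [show r + 1 + m = r + (m + 1) by ring] at h5)
      have h5 : P t * l * U (M *ᵥ a) * Y b = U (M *ᵥ a) * (P t * l * Y b) := by ring
      have h6 : P t * l * l * Y a * Y b = l * Y a * (P t * l * Y b) := by ring
      rw [h6, ← h4, ← h5, h3]
    have h2 : ∀ v ∈ G m, D (P t * l * l * Y a * v) = 0 := by
      intro v hv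
      obtain ⟨b, hb⟩ := hgs v hv
      have h3 := hb (P t * l * l * Y a) (hG.mul (r + 2) m _ _ (hPll.deg hG hK) (hY a))
      have h4 : P t * l * l * Y a * v = (v - ∑ i, b i • g i) * (P t * l * l * Y a) +
          P t * l * l * Y a * Y b := by
        simp only [Y]
        ring
      rw [h4, map_add, h3, h1, add_zero]
    exact step_hl hG hK hgen hpos hx1 hR (r := r + 2) (by omega) hPll (hY a) h2
  -- the start
  have hgm : ∀ b : Fin e → ℝ, ∀ v ∈ G m, ∃ b' : Fin e → ℝ, ∀ z ∈ G (r + 2 + m),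
      D ((v - Y b') * z) = 0 := by
    intro b v hv
    exact hgs v hv
  have hprimY : ∀ t ∈ Icc (0 : ℝ) 1, ∀ a, (Mᵀ * Q t) *ᵥ a = 0 →
      ∀ v ∈ G m, D (P t * l * U a * v) = 0 := by
    intro t ht a ha v hv
    obtain ⟨b, hb⟩ := hgs v hv
    have hm1 : P t * l * U a ∈ G (r + 2 + m) := by
      have := hG.mul (r + 1) (m + 1) _ _ ((KP.mul _ _ _ (hPK t ht) hl).deg hG hK) (hU a)
      rwa [show r + 1 + (m + 1) = r + 2 + m by ring] at this
    have h3 := hb _ hm1
    have h4 : P t * l * U a * v = (v - ∑ i, b i • g i) * (P t * l * U a) +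
        P t * l * U a * Y b := by
      simp only [Y]
      ring
    have h5 := hMQ t ht a b
    rw [ha, dotProduct_zero] at h5
    have h6 : D (P t * l * U a * Y b) = 0 := by
      rcases mul_eq_zero.1 h5.symm with h3 | h3
      · exact absurd h3 (pow_ne_zero _ (by norm_num))
      · exact h3
    rw [h4, map_add, h3, h6, add_zero]
  have h0 : PosC (Q 0) M := by
    intro a ha ha0
    rw [hQUU]
    have hz : (0 : ℝ) ∈ Icc (0 : ℝ) 1 := by simp
    have h1 := hO (m + 1) r l (U a) hr hl (hU a) (by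
      intro j hj v hv
      have : j = m := by omega
      subst this
      have := hprimY 0 hz a ha v hv
      rwa [hP0] at this)
    rw [hP0]
    refine lt_of_le_of_ne h1.1 (fun h2 => ha0 ?_)
    apply hfi
    apply h1.2
    rcases mul_eq_zero.1 h2.symm with h3 | h3
    · exact absurd h3 (pow_ne_zero _ (by norm_num))
    · exact h3
  have h1 := conn (Q := Q) (M := fun _ => M) hQc continuous_const hQs hd hd' h0
  have hone : (1 : ℝ) ∈ Icc (0 : ℝ) 1 := by simp
  -- the end
  obtain ⟨a, ha⟩ := hfs u hu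
  have hBG := hB.deg hG hK
  have ea : ∀ v ∈ G (m + 1), D (B * u * v) = D (B * U a * v) := by
    intro v hv
    have h2 := ha (B * v) (hG.mul r (m + 1) _ _ hBG hv)
    have h3 : B * u * v = (u - ∑ i, a i • f i) * (B * v) + B * U a * v := by
      simp only [U]
      ring
    rw [h3, map_add, h2, zero_add]
  have eUU : D (B * u * u) = D (B * U a * U a) := by
    rw [ea u hu]
    have h2 := ea (U a) (hU a)
    rw [← h2]
    congr 1
    ring
  have hprimA : (Mᵀ * Q 1) *ᵥ a = 0 := by
    rw [← dotProduct_self_eq_zero, hMQ 1 hone]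
    have h2 := hprim m rfl (Y ((Mᵀ * Q 1) *ᵥ a)) (hY _)
    have h3 := ea (l * Y ((Mᵀ * Q 1) *ᵥ a)) (hlm _ (hY _))
    have h4 : B * u * (l * Y ((Mᵀ * Q 1) *ᵥ a)) = B * l * u * Y ((Mᵀ * Q 1) *ᵥ a) := by ring
    have h5 : P 1 * l * U a * Y ((Mᵀ * Q 1) *ᵥ a) =
        B * U a * (l * Y ((Mᵀ * Q 1) *ᵥ a)) := by
      rw [hP1]
      ring
    rw [h5, ← h3, h4, h2, mul_zero]
  by_cases ha0 : a = 0
  · have hU0 : U a = 0 := by
      simp [U, ha0]
    have h2 : D (B * u * u) = 0 := by rw [eUU, hU0, mul_zero, map_zero]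
    refine ⟨by rw [h2, mul_zero], fun _ v hv => ?_⟩
    have h3 := ha v hv
    rw [ha0] at h3
    simpa using h3
  · have h2 := h1 a hprimA ha0
    rw [hQUU, hP1] at h2
    rw [eUU]
    refine ⟨h2.le, fun h3 => ?_⟩
    rw [h3, mul_zero] at h2
    exact absurd h2 (lt_irrefl _)

/-- Mixed Hodge-Riemann relations from the ordinary ones. -/
theorem mix (hG : Grd G) (hK : Cone1 G K) (hgen : Gen G x) (hpos : PosK K x)
    (hx1 : ∀ i, x i ∈ G 1) (F : ℕ → (R →ₗ[ℝ] ℝ) → Prop)
    (hF : ∀ N D, F (N + 1) D → ∀ i, F N (res D (x i)))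
    (hO : ∀ N D, F N D → OHR G K N D) : ∀ N D, F N D → HR G K N D := by
  intro N
  induction N with
  | zero =>
    intro D hD m r B l u hr hB hl hu hprim
    have hr0 : r = 0 := by omega
    have hm0 : m = 0 := by omega
    subst hr0 hm0
    cases hB
    have := hO 0 D hD 0 0 l u rfl hl hu (fun j hj => by omega)
    simpa using this
  | succ N ih =>
    intro D hD
    exact step_hr hG hK hgen hpos hx1 (fun i => ih _ (hF N D hD i)) (hO _ D hD)

end

end Pool.Agent.KD
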