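import Pool.Agent.KD.Defs

/-!
# The norms attached to the mixed Hodge-Riemann relations
-/

namespace Pool.Agent.KD

variable {R : Type*} [CommRing R] [Algebra ℝ R]

/-! ### Linear algebra -/

/-- A functional which is zero on the radical of a symmetric form is represented by it. -/
theorem exists_rep {V : Type*} [AddCommGroup V] [Module ℝ V] [FiniteDimensional ℝ V]
    (β : V →ₗ[ℝ] V →ₗ[ℝ] ℝ) (hs : ∀ x y, β x y = β y x) (φ : V →ₗ[ℝ] ℝ)
    (h : ∀ w, β w = 0 → φ w = 0) : ∃ p, ∀ v, β p v = φ v := by
  have h1 : φ ∈ LinearMap.range β.dualMap := by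
    rw [LinearMap.range_dualMap_eq_dualAnnihilator_ker, Submodule.mem_dualAnnihilator]
    intro w hw
    exact h w (LinearMap.mem_ker.1 hw)
  obtain ⟨ψ, hψ⟩ := h1
  obtain ⟨p, hp⟩ := (Module.evalEquiv ℝ V).surjective ψ
  refine ⟨p, fun v => ?_⟩
  have h2 := congrArg (fun f => f v) hψ
  simp only [LinearMap.dualMap_apply] at h2
  rw [← h2, ← hp, hs]
  rfl

theorem cs_real {a b c : ℝ} (h : ∀ s t : ℝ, 0 ≤ a * s ^ 2 + 2 * b * s * t + c * t ^ 2) :
    b ^ 2 ≤ a * c := by
  have ha : 0 ≤ a := by simpa using h 1 0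
  have hc : 0 ≤ c := by simpa using h 0 1
  rcases ha.lt_or_eq with ha' | ha'
  · have := h (-b) a
    have h2 : 0 ≤ a * (a * c - b ^ 2) := by nlinarith
    have := nonneg_of_mul_nonneg_right h2 ha'
    linarith
  · rcases hc.lt_or_eq with hc' | hc'
    · have := h c (-b)
      have h2 : 0 ≤ c * (a * c - b ^ 2) := by nlinarith
      have := nonneg_of_mul_nonneg_right h2 hc'
      linarith
    · have h1 := h 1 1
      have h2 := h 1 (-1)
      rw [← ha', ← hc'] at h1 h2 ⊢
      have : b = 0 := by linarith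
      rw [this]
      norm_num

theorem sq_add_le {a b x y z w : ℝ} (h1 : a ^ 2 ≤ x * y) (h2 : b ^ 2 ≤ z * w) (hx : 0 ≤ x)
    (hy : 0 ≤ y) (hz : 0 ≤ z) (hw : 0 ≤ w) : (a + b) ^ 2 ≤ (x + z) * (y + w) := by
  have h3 : (2 * (a * b)) ^ 2 ≤ (x * w + z * y) ^ 2 := by
    have h4 : (a * b) ^ 2 ≤ (x * y) * (z * w) := by
      rw [mul_pow]
      exact mul_le_mul h1 h2 (sq_nonneg b) (mul_nonneg hx hy)
    nlinarith [sq_nonneg (x * w - z * y)]
  have h5 : 2 * (a * b) ≤ x * w + z * y := by
    have h6 : 0 ≤ x * w + z * y := add_nonneg (mul_nonneg hx hw) (mul_nonneg hz hy)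
    exact le_of_sq_le_sq_of_nonneg' h3 h6
  nlinarith
where
  le_of_sq_le_sq_of_nonneg' {p q : ℝ} (h : p ^ 2 ≤ q ^ 2) (hq : 0 ≤ q) : p ≤ q :=
    le_of_abs_le_abs' h hq
  le_of_abs_le_abs' {p q : ℝ} (h : p ^ 2 ≤ q ^ 2) (hq : 0 ≤ q) : p ≤ q := by
    have := abs_le_abs_of_sq_le_sq' h
    rw [abs_of_nonneg hq] at this
    exact (le_abs_self p).trans this
  abs_le_abs_of_sq_le_sq' {p q : ℝ} (h : p ^ 2 ≤ q ^ 2) : |p| ≤ |q| := sq_le_sq.1 h

/-! ### Products of elements of the cone -/

theorem KP.deg {G : ℕ → Submodule ℝ R} {K : Set R} (hG : Grd G) (hK : Cone1 G K) {r : ℕ}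
    {b : R} (h : KP K r b) : b ∈ G r := by
  induction h with
  | one => exact hG.one
  | mul r b x _ hx ih => exact hG.mul r 1 b x ih (hK.deg x hx)

omit [Algebra ℝ R] in
theorem KP.pow {K : Set R} {l : R} (hl : l ∈ K) (r : ℕ) : KP K r (l ^ r) := by
  induction r with
  | zero => rw [pow_zero]; exact KP.one
  | succ r ih => rw [pow_succ]; exact KP.mul r _ l ih hl

omit [Algebra ℝ R] in
theorem KP.mul' {K : Set R} {r s : ℕ} {b c : R} (h : KP K r b) (h' : KP K s c) :
    KP K (r + s) (b * c) := by
  induction h' with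
  | one => simpa using h
  | mul s c x _ hx ih =>
    rw [← mul_assoc, ← add_assoc]
    exact KP.mul _ _ x ih hx

/-! ### The definition -/

open Classical in
/-- The component along `l`. -/
noncomputable def pr (G : ℕ → Submodule ℝ R) (D : R →ₗ[ℝ] ℝ) (l : R) (m : ℕ) (B u : R) : R :=
  if h : ∃ p ∈ G m, ∀ v ∈ G m, D (B * l * (u - l * p) * v) = 0 then h.choose else 0

/-- The norm. -/
noncomputable def nrm (G : ℕ → Submodule ℝ R) (D : R →ₗ[ℝ] ℝ) (l : R) : ℕ → R → R → ℝ
  | 0, B, u => D (B * u * u)
  | m + 1, B, u =>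
    (-1 : ℝ) ^ (m + 1) * D (B * (u - l * pr G D l m B u) * (u - l * pr G D l m B u)) +
      nrm G D l m (B * l * l) (pr G D l m B u)

section

variable {G : ℕ → Submodule ℝ R} {K : Set R} {N : ℕ} {D : R →ₗ[ℝ] ℝ} {l : R}

theorem radical (hG : Grd G) (hK : Cone1 G K) (hD : HR G K N D) (hl : l ∈ K) {m r : ℕ}
    {B w : R} (hr : r + 2 * m = N) (hB : KP K r B) (hw : w ∈ G m)
    (h : ∀ v ∈ G m, D (B * w * v) = 0) : ∀ v ∈ G (r + m), D (w * v) = 0 := by
  refine (hD m r B l w hr hB hl hw ?_).2 (h w hw)
  intro j hj v hv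
  have h1 : l * v ∈ G m := by
    have := hG.mul 1 j l v (hK.deg l hl) hv
    rwa [show 1 + j = m by omega] at this
  have h2 := h _ h1
  rw [← h2]
  congr 1
  ring

theorem exists_pr (hG : Grd G) (hK : Cone1 G K) (hD : HR G K N D) (hl : l ∈ K) {m r : ℕ}
    {B u : R} (hr : r + 2 * (m + 1) = N) (hB : KP K r B) (hu : u ∈ G (m + 1)) :
    ∃ p ∈ G m, ∀ v ∈ G m, D (B * l * (u - l * p) * v) = 0 := by
  have := hG.fin m
  let β : G m →ₗ[ℝ] G m →ₗ[ℝ] ℝ :=
    LinearMap.mk₂ ℝ (fun p v => D (B * l * l * p.1 * v.1))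
      (by intro a b c; simp only [Submodule.coe_add]; rw [← map_add]; congr 1; ring)
      (by
        intro c a b
        have e : B * l * l * ((c • a : G m) : R) * (b : R) = c • (B * l * l * a.1 * b.1) := by
          simp only [Submodule.coe_smul, mul_smul_comm, smul_mul_assoc]
        rw [e, map_smul])
      (by intro a b c; simp only [Submodule.coe_add]; rw [← map_add]; congr 1; ring)
      (by
        intro c a b
        have e : B * l * l * (a : R) * ((c • b : G m) : R) = c • (B * l * l * a.1 * b.1) := by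
          simp only [Submodule.coe_smul, mul_smul_comm]
        rw [e, map_smul])
  let φ : G m →ₗ[ℝ] ℝ := D ∘ₗ LinearMap.mulLeft ℝ (B * l * u) ∘ₗ (G m).subtype
  have hβ : ∀ p v, β p v = D (B * l * l * p.1 * v.1) := fun p v => rfl
  have hφ : ∀ v, φ v = D (B * l * u * v.1) := fun v => rfl
  obtain ⟨p, hp⟩ := exists_rep β (by
    intro x y
    rw [hβ, hβ]
    congr 1
    ring) φ (by
    intro w hw
    have h1 : ∀ v ∈ G m, D (B * l * l * w.1 * v) = 0 := by
      intro v hv
      have := congrArg (fun f => f ⟨v, hv⟩) hw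
      exact this
    have hB2 : KP K (r + 2) (B * l * l) := KP.mul _ _ l (KP.mul _ _ l hB hl) hl
    have h2 := radical hG hK hD hl (r := r + 2) (by omega) hB2 w.2 h1
    have h3 : B * l * u ∈ G (r + 2 + m) := by
      have := hG.mul (r + 1) (m + 1) (B * l) u ((KP.mul _ _ l hB hl).deg hG hK) hu
      rwa [show r + 1 + (m + 1) = r + 2 + m by ring] at this
    have h4 := h2 _ h3
    rw [hφ, ← h4]
    congr 1
    ring)
  refine ⟨p.1, p.2, fun v hv => ?_⟩
  have h1 := hp ⟨v, hv⟩
  rw [hβ, hφ] at h1
  have h2 : B * l * (u - l * p.1) * v = B * l * u * v - B * l * l * p.1 * v := by ring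
  rw [h2, map_sub]
  simp only at h1
  rw [h1, sub_self]

theorem pr_mem (hG : Grd G) (hK : Cone1 G K) (hD : HR G K N D) (hl : l ∈ K) {m r : ℕ}
    {B u : R} (hr : r + 2 * (m + 1) = N) (hB : KP K r B) (hu : u ∈ G (m + 1)) :
    pr G D l m B u ∈ G m := by
  have h := exists_pr hG hK hD hl hr hB hu
  rw [pr, dif_pos h]
  exact h.choose_spec.1

theorem pr_spec (hG : Grd G) (hK : Cone1 G K) (hD : HR G K N D) (hl : l ∈ K) {m r : ℕ}
    {B u : R} (hr : r + 2 * (m + 1) = N) (hB : KP K r B) (hu : u ∈ G (m + 1)) :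
    ∀ v ∈ G m, D (B * l * (u - l * pr G D l m B u) * v) = 0 := by
  have h := exists_pr hG hK hD hl hr hB hu
  rw [pr, dif_pos h]
  exact h.choose_spec.2

/-- The primitive part is in the graded piece. -/
theorem prim_mem (hG : Grd G) (hK : Cone1 G K) (hl : l ∈ K) {m : ℕ} {u p : R}
    (hu : u ∈ G (m + 1)) (hp : p ∈ G m) : u - l * p ∈ G (m + 1) := by
  apply Submodule.sub_mem _ hu
  have := hG.mul 1 m l p (hK.deg l hl) hp
  rwa [add_comm 1 m] at this

/-- The norm depends only on the class. -/
theorem nrm_congr (hG : Grd G) (hK : Cone1 G K) (hD : HR G K N D) (hl : l ∈ K) (m : ℕ) :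
    ∀ (r : ℕ) (B u w : R), r + 2 * m = N → KP K r B → u ∈ G m → w ∈ G m →
      (∀ v ∈ G m, D (B * (u - w) * v) = 0) → nrm G D l m B u = nrm G D l m B w := by
  induction m with
  | zero =>
    intro r B u w _ _ hu hw h
    simp only [nrm]
    have h1 := h u hu
    have h2 := h w hw
    have h3 : B * u * u - B * w * w = B * (u - w) * u + B * (u - w) * w := by ring
    have h4 := congrArg D h3
    rw [map_sub, map_add, h1, h2] at h4
    linarith
  | succ m ih =>
    intro r B u w hr hB hu hw h
    simp only [nrm]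
    have hp := pr_mem hG hK hD hl hr hB hu
    have hq := pr_mem hG hK hD hl hr hB hw
    have hps := pr_spec hG hK hD hl hr hB hu
    have hqs := pr_spec hG hK hD hl hr hB hw
    set p := pr G D l m B u
    set q := pr G D l m B w
    have hlm : ∀ v ∈ G m, l * v ∈ G (m + 1) := by
      intro v hv
      have := hG.mul 1 m l v (hK.deg l hl) hv
      rwa [add_comm 1 m] at this
    have e1 : nrm G D l m (B * l * l) p = nrm G D l m (B * l * l) q := by
      apply ih (r + 2) (B * l * l) p q (by omega) (KP.mul _ _ l (KP.mul _ _ l hB hl) hl) hp hq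
      intro v hv
      have h1 := hps v hv
      have h2 := hqs v hv
      have h3 := h (l * v) (hlm v hv)
      have h4 : B * l * l * (p - q) * v =
        B * (u - w) * (l * v) - B * l * (u - l * p) * v + B * l * (w - l * q) * v := by ring
      rw [h4, map_add, map_sub, h1, h2, h3]
      ring
    have e2 : D (B * (u - l * p) * (u - l * p)) = D (B * (w - l * q) * (w - l * q)) := by
      have h1 := hps (p - q) (Submodule.sub_mem _ hp hq)
      have h2 := hqs (p - q) (Submodule.sub_mem _ hp hq)
      have h3 := h _ (prim_mem hG hK hl hu hp)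
      have h4 := h _ (prim_mem hG hK hl hw hq)
      have h5 : B * (u - l * p) * (u - l * p) - B * (w - l * q) * (w - l * q) =
        B * (u - w) * (u - l * p) + B * (u - w) * (w - l * q) -
          B * l * (u - l * p) * (p - q) - B * l * (w - l * q) * (p - q) := by ring
      have h6 := congrArg D h5
      rw [map_sub, map_sub, map_sub, map_add, h1, h2, h3, h4] at h6
      linarith
    rw [e1, e2]

/-- The form is nonnegative on the primitive part. -/
theorem prim_nonneg (hG : Grd G) (hK : Cone1 G K) (hD : HR G K N D) (hl : l ∈ K) {m r : ℕ}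
    {B u : R} (hr : r + 2 * (m + 1) = N) (hB : KP K r B) (hu : u ∈ G (m + 1))
    (h : ∀ v ∈ G m, D (B * l * u * v) = 0) : 0 ≤ (-1 : ℝ) ^ (m + 1) * D (B * u * u) := by
  refine (hD (m + 1) r B l u hr hB hl hu ?_).1
  intro j hj v hv
  have : j = m := by omega
  subst this
  exact h v hv

theorem nrm_nonneg (hG : Grd G) (hK : Cone1 G K) (hD : HR G K N D) (hl : l ∈ K) (m : ℕ) :
    ∀ (r : ℕ) (B u : R), r + 2 * m = N → KP K r B → u ∈ G m → 0 ≤ nrm G D l m B u := by
  induction m with
  | zero =>
    intro r B u hr hB hu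
    simp only [nrm]
    have := (hD 0 r B l u hr hB hl hu (fun j hj => by omega)).1
    simpa using this
  | succ m ih =>
    intro r B u hr hB hu
    simp only [nrm]
    have hp := pr_mem hG hK hD hl hr hB hu
    have hps := pr_spec hG hK hD hl hr hB hu
    have h1 := ih (r + 2) (B * l * l) _ (by omega) (KP.mul _ _ l (KP.mul _ _ l hB hl) hl) hp
    have h2 := prim_nonneg hG hK hD hl hr hB (prim_mem hG hK hl hu hp) hps
    linarith

/-- The Cauchy-Schwarz inequality. -/
theorem nrm_cs (hG : Grd G) (hK : Cone1 G K) (hD : HR G K N D) (hl : l ∈ K) (m : ℕ) :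
    ∀ (r : ℕ) (B u w : R), r + 2 * m = N → KP K r B → u ∈ G m → w ∈ G m →
      D (B * u * w) ^ 2 ≤ nrm G D l m B u * nrm G D l m B w := by
  induction m with
  | zero =>
    intro r B u w hr hB hu hw
    simp only [nrm]
    apply cs_real
    intro s t
    have := (hD 0 r B l (s • u + t • w) hr hB hl
      (Submodule.add_mem _ (Submodule.smul_mem _ _ hu) (Submodule.smul_mem _ _ hw))
      (fun j hj => by omega)).1
    have h2 : B * (s • u + t • w) * (s • u + t • w) =
      (s ^ 2) • (B * u * u) + (2 * s * t) • (B * u * w) + (t ^ 2) • (B * w * w) := by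
      simp only [mul_add, add_mul, mul_smul_comm, smul_mul_assoc, smul_smul]
      have e1 : B * w * u = B * u * w := by ring
      rw [e1]
      module
    rw [h2, map_add, map_add, map_smul, map_smul, map_smul] at this
    simp only [pow_zero, one_mul, smul_eq_mul] at this
    linarith
  | succ m ih =>
    intro r B u w hr hB hu hw
    simp only [nrm]
    have hp := pr_mem hG hK hD hl hr hB hu
    have hq := pr_mem hG hK hD hl hr hB hw
    have hps := pr_spec hG hK hD hl hr hB hu
    have hqs := pr_spec hG hK hD hl hr hB hw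
    set p := pr G D l m B u
    set q := pr G D l m B w
    have hB2 : KP K (r + 2) (B * l * l) := KP.mul _ _ l (KP.mul _ _ l hB hl) hl
    have e1 := ih (r + 2) (B * l * l) p q (by omega) hB2 hp hq
    have n1 := nrm_nonneg hG hK hD hl m (r + 2) (B * l * l) p (by omega) hB2 hp
    have n2 := nrm_nonneg hG hK hD hl m (r + 2) (B * l * l) q (by omega) hB2 hq
    have m1 := prim_nonneg hG hK hD hl hr hB (prim_mem hG hK hl hu hp) hps
    have m2 := prim_nonneg hG hK hD hl hr hB (prim_mem hG hK hl hw hq) hqs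
    have e2 : ((-1 : ℝ) ^ (m + 1) * D (B * (u - l * p) * (w - l * q))) ^ 2 ≤
        ((-1 : ℝ) ^ (m + 1) * D (B * (u - l * p) * (u - l * p))) *
          ((-1 : ℝ) ^ (m + 1) * D (B * (w - l * q) * (w - l * q))) := by
      apply cs_real
      intro s t
      set x := u - l * p with hx
      set y := w - l * q with hy
      have hxm : x ∈ G (m + 1) := prim_mem hG hK hl hu hp
      have hym : y ∈ G (m + 1) := prim_mem hG hK hl hw hq
      have := prim_nonneg hG hK hD hl hr hB (u := s • x + t • y)
        (Submodule.add_mem _ (Submodule.smul_mem _ _ hxm) (Submodule.smul_mem _ _ hym))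
        (by
          intro v hv
          have h1 := hps v hv
          have h2 := hqs v hv
          have h3 : B * l * (s • x + t • y) * v =
            s • (B * l * x * v) + t • (B * l * y * v) := by
            simp only [mul_add, add_mul, mul_smul_comm, smul_mul_assoc]
          rw [h3, map_add, map_smul, map_smul, h1, h2]
          simp)
      have h2 : B * (s • x + t • y) * (s • x + t • y) =
        (s ^ 2) • (B * x * x) + (2 * s * t) • (B * x * y) + (t ^ 2) • (B * y * y) := by
        simp only [mul_add, add_mul, mul_smul_comm, smul_mul_assoc, smul_smul]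
        have e1 : B * y * x = B * x * y := by ring
        rw [e1]
        module
      rw [h2, map_add, map_add, map_smul, map_smul, map_smul] at this
      simp only [smul_eq_mul] at this
      linarith
    have e3 : D (B * u * w) = D (B * (u - l * p) * (w - l * q)) + D (B * l * l * p * q) := by
      have h1 := hps q hq
      have h2 := hqs p hp
      have h3 : B * u * w = B * (u - l * p) * (w - l * q) + B * l * l * p * q +
        B * l * (u - l * p) * q + B * l * (w - l * q) * p := by ring
      rw [h3, map_add, map_add, map_add, h1, h2]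
      ring
    have hsgn : ((-1 : ℝ) ^ (m + 1)) ^ 2 = 1 := by
      rw [← pow_mul, mul_comm, pow_mul]
      norm_num
    have e4 : D (B * (u - l * p) * (w - l * q)) ^ 2 ≤
        ((-1 : ℝ) ^ (m + 1) * D (B * (u - l * p) * (u - l * p))) *
          ((-1 : ℝ) ^ (m + 1) * D (B * (w - l * q) * (w - l * q))) := by
      refine le_trans (le_of_eq ?_) e2
      rw [mul_pow, hsgn, one_mul]
    rw [e3]
    exact sq_add_le e4 e1 m1 m2 n1 n2

theorem abs_le_nrm (hG : Grd G) (hK : Cone1 G K) (hD : HR G K N D) (hl : l ∈ K) {m r : ℕ}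
    {B u : R} (hr : r + 2 * m = N) (hB : KP K r B) (hu : u ∈ G m) :
    |D (B * u * u)| ≤ nrm G D l m B u := by
  have h1 := nrm_cs hG hK hD hl m r B u u hr hB hu hu
  have h2 := nrm_nonneg hG hK hD hl m r B u hr hB hu
  have h3 : |D (B * u * u)| ≤ |nrm G D l m B u| := by
    apply sq_le_sq.1
    rw [sq (nrm G D l m B u)]
    exact h1
  rwa [abs_of_nonneg h2] at h3

/-- The dual element. -/
theorem exists_dual (hG : Grd G) (hK : Cone1 G K) (hD : HR G K N D) (hl : l ∈ K) (m : ℕ) :
    ∀ (r : ℕ) (B u : R), r + 2 * m = N → KP K r B → u ∈ G m →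
      ∃ w ∈ G m, D (B * u * w) = nrm G D l m B u ∧ nrm G D l m B w = nrm G D l m B u := by
  induction m with
  | zero =>
    intro r B u hr hB hu
    exact ⟨u, hu, rfl, rfl⟩
  | succ m ih =>
    intro r B u hr hB hu
    have hp := pr_mem hG hK hD hl hr hB hu
    have hps := pr_spec hG hK hD hl hr hB hu
    set p := pr G D l m B u with hpdef
    have hB2 : KP K (r + 2) (B * l * l) := KP.mul _ _ l (KP.mul _ _ l hB hl) hl
    obtain ⟨q, hq, hq1, hq2⟩ := ih (r + 2) (B * l * l) p (by omega) hB2 hp
    have hum := prim_mem hG hK hl hu hp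
    have hlq : l * q ∈ G (m + 1) := by
      have := hG.mul 1 m l q (hK.deg l hl) hq
      rwa [add_comm 1 m] at this
    have hwm : ((-1 : ℝ) ^ (m + 1)) • (u - l * p) + l * q ∈ G (m + 1) :=
      Submodule.add_mem _ (Submodule.smul_mem _ _ hum) hlq
    have hsgn : ((-1 : ℝ) ^ (m + 1)) ^ 2 = 1 := by
      rw [← pow_mul, mul_comm, pow_mul]
      norm_num
    refine ⟨_, hwm, ?_, ?_⟩
    · have h1 := hps q hq
      have h2 := hps p hp
      have h3 : B * u * (((-1 : ℝ) ^ (m + 1)) • (u - l * p) + l * q) =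
        ((-1 : ℝ) ^ (m + 1)) • (B * (u - l * p) * (u - l * p)) +
          ((-1 : ℝ) ^ (m + 1)) • (B * l * (u - l * p) * p) +
          B * l * (u - l * p) * q + B * l * l * p * q := by
        simp only [mul_add, mul_smul_comm]
        have e1 : B * u * (u - l * p) = B * (u - l * p) * (u - l * p) +
          B * l * (u - l * p) * p := by ring
        rw [e1, smul_add]
        ring
      rw [h3, map_add, map_add, map_add, map_smul, map_smul, h1, h2, hq1, nrm]
      simp only [smul_eq_mul, mul_zero, add_zero]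
      rfl
    · set w := ((-1 : ℝ) ^ (m + 1)) • (u - l * p) + l * q with hw
      have hr' := pr_mem hG hK hD hl hr hB hwm
      have hrs := pr_spec hG hK hD hl hr hB hwm
      set z := pr G D l m B w with hzdef
      have hwz : ∀ v ∈ G m, D (B * l * l * (z - q) * v) = 0 := by
        intro v hv
        have h1 := hrs v hv
        have h2 := hps v hv
        have h3 : B * l * l * (z - q) * v =
          ((-1 : ℝ) ^ (m + 1)) • (B * l * (u - l * p) * v) - B * l * (w - l * z) * v := by
          rw [hw]
          simp only [mul_add, add_mul, mul_sub, sub_mul, mul_smul_comm, smul_mul_assoc,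
            smul_sub]
          ring
        rw [h3, map_sub, map_smul, h1, h2]
        simp
      have e1 : nrm G D l m (B * l * l) z = nrm G D l m (B * l * l) q :=
        nrm_congr hG hK hD hl m (r + 2) (B * l * l) z q (by omega) hB2 hr' hq hwz
      have e2 : D (B * (w - l * z) * (w - l * z)) = D (B * (u - l * p) * (u - l * p)) := by
        have h1 := hrs (q - z) (Submodule.sub_mem _ hq hr')
        have h2 := hps (q - z) (Submodule.sub_mem _ hq hr')
        have h3 : w - l * z = ((-1 : ℝ) ^ (m + 1)) • (u - l * p) + l * (q - z) := by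
          rw [hw]
          ring
        have h4 : B * (w - l * z) * (w - l * z) =
          (((-1 : ℝ) ^ (m + 1)) ^ 2) • (B * (u - l * p) * (u - l * p)) +
            ((-1 : ℝ) ^ (m + 1)) • (B * l * (u - l * p) * (q - z)) +
            B * l * (w - l * z) * (q - z) := by
          have h5 : B * (w - l * z) * (w - l * z) =
            B * (w - l * z) * (((-1 : ℝ) ^ (m + 1)) • (u - l * p)) +
              B * l * (w - l * z) * (q - z) := by
            nth_rewrite 2 [h3]
            ring
          rw [h5]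
          congr 1
          rw [h3]
          simp only [mul_add, add_mul, mul_smul_comm, smul_mul_assoc, smul_smul, ← sq,
            smul_add]
          have e6 : B * (l * (q - z)) * (u - l * p) = B * l * (u - l * p) * (q - z) := by ring
          rw [e6]
        rw [h4, hsgn, one_smul, map_add, map_add, map_smul, h1, h2]
        simp
      rw [nrm, nrm, ← hzdef, ← hpdef, e1, e2, hq2]

/-- The main inequality. -/
theorem nrm_le (hG : Grd G) (hK : Cone1 G K) (hD : HR G K N D) (hl : l ∈ K) {m r : ℕ}
    {B u : R} (hr : r + 2 * (m + 1) = N) (hB : KP K r B) (hu : u ∈ G (m + 1)) {M : ℝ}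
    (hM : 0 ≤ M) (h : ∀ v ∈ G m, D (B * l * u * v) ^ 2 ≤ M * nrm G D l m (B * l * l) v) :
    nrm G D l (m + 1) B u ≤ (-1 : ℝ) ^ (m + 1) * D (B * u * u) + 2 * M := by
  have hp := pr_mem hG hK hD hl hr hB hu
  have hps := pr_spec hG hK hD hl hr hB hu
  set p := pr G D l m B u with hpdef
  have hB2 : KP K (r + 2) (B * l * l) := KP.mul _ _ l (KP.mul _ _ l hB hl) hl
  obtain ⟨q, hq, hq1, hq2⟩ := exists_dual hG hK hD hl m (r + 2) (B * l * l) p (by omega) hB2 hp
  have n1 := nrm_nonneg hG hK hD hl m (r + 2) (B * l * l) p (by omega) hB2 hp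
  have e1 : nrm G D l m (B * l * l) p ≤ M := by
    have h1 : D (B * l * u * q) = nrm G D l m (B * l * l) p := by
      rw [← hq1]
      have h2 := hps q hq
      have h3 : B * l * u * q = B * l * (u - l * p) * q + B * l * l * p * q := by ring
      rw [h3, map_add, h2, zero_add]
    have h2 := h q hq
    rw [h1, hq2] at h2
    rcases n1.lt_or_eq with hn | hn
    · rw [sq] at h2
      exact le_of_mul_le_mul_right h2 hn
    · rw [← hn]
      exact hM
  have e2 : D (B * u * u) = D (B * (u - l * p) * (u - l * p)) + D (B * l * l * p * p) := by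
    have h2 := hps p hp
    have h3 : B * u * u = B * (u - l * p) * (u - l * p) + B * l * l * p * p +
      B * l * (u - l * p) * p + B * l * (u - l * p) * p := by ring
    rw [h3, map_add, map_add, map_add, h2]
    ring
  have e3 := abs_le_nrm hG hK hD hl (r := r + 2) (by omega) hB2 hp
  have e4 : (-1 : ℝ) ^ (m + 1) * D (B * (u - l * p) * (u - l * p)) ≤
      (-1 : ℝ) ^ (m + 1) * D (B * u * u) + nrm G D l m (B * l * l) p := by
    rw [e2]
    have h1 : |(-1 : ℝ) ^ (m + 1) * D (B * l * l * p * p)| ≤ nrm G D l m (B * l * l) p := by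
      rw [abs_mul, abs_pow, abs_neg, abs_one, one_pow, one_mul]
      exact e3
    have := (abs_le.1 h1).1
    linarith
  rw [nrm, ← hpdef]
  linarith

end

end Pool.Agent.KD
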