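import Mathlib

/-!
# Hodge norms from mixed Hodge-Riemann relations (route (D) for MP_716236_co, section 1)

`A` a commutative real algebra with finite dimensional pieces `G i`, `K ⊆ G 1`, `D : A → ℝ` linear.
`MHR G K N D`: mixed Hodge-Riemann relations of `D` in dimension `N`.
-/

namespace Pool.KD

set_option linter.unusedSectionVars false

variable {A : Type*} [CommRing A] [Algebra ℝ A]

/-- `KP K n B`: `B` is a product of `n` elements of `K`. -/
inductive KP (K : Set A) : ℕ → A → Prop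
  | one : KP K 0 1
  | cons {n : ℕ} {b B : A} : b ∈ K → KP K n B → KP K (n + 1) (b * B)

/-- the pieces `G i` are finite dimensional and multiply. -/
structure Gr (G : ℕ → Submodule ℝ A) : Prop where
  one : (1 : A) ∈ G 0
  mul : ∀ {i j : ℕ} {a b : A}, a ∈ G i → b ∈ G j → a * b ∈ G (i + j)
  fd : ∀ i, FiniteDimensional ℝ (G i)

/-- mixed Hodge-Riemann relations for the functional `D` of dimension `N` with respect to `K`. -/
def MHR (G : ℕ → Submodule ℝ A) (K : Set A) (N : ℕ) (D : A →ₗ[ℝ] ℝ) : Prop :=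
  ∀ m r, 2 * m + r = N → ∀ B, KP K r B → ∀ l ∈ K, ∀ u ∈ G m,
    (∀ j, j + 1 = m → ∀ v ∈ G j, D (B * l * u * v) = 0) →
      0 ≤ (-1) ^ m * D (B * u ^ 2) ∧
        (D (B * u ^ 2) = 0 → ∀ v ∈ G (m + r), D (u * v) = 0)

/-- a functional vanishing on the kernel of a symmetric form is represented. -/
theorem repr_of_ker {V : Type*} [AddCommGroup V] [Module ℝ V] [FiniteDimensional ℝ V]
    (β : V →ₗ[ℝ] V →ₗ[ℝ] ℝ) (hsym : ∀ x y, β x y = β y x) (φ : V →ₗ[ℝ] ℝ)
    (hker : ∀ x, (∀ y, β x y = 0) → φ x = 0) : ∃ a, ∀ y, β a y = φ y := by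
  have h1 : φ ∈ (LinearMap.ker β).dualAnnihilator := by
    rw [Submodule.mem_dualAnnihilator]
    intro w hw
    apply hker
    intro y
    rw [LinearMap.mem_ker] at hw
    rw [hw]; rfl
  rw [← LinearMap.range_dualMap_eq_dualAnnihilator_ker] at h1
  obtain ⟨ψ, hψ⟩ := h1
  obtain ⟨a, rfl⟩ := (Module.evalEquiv ℝ V).surjective ψ
  refine ⟨a, fun y => ?_⟩
  rw [← hψ]
  simp [hsym a y]

/-- the Lefschetz part of `u`. -/
noncomputable def pick (G : ℕ → Submodule ℝ A) (D : A →ₗ[ℝ] ℝ) (l : A) (m : ℕ) (B u : A) : A :=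
  Classical.epsilon (fun u' => u' ∈ G m ∧ ∀ v ∈ G m, D (B * l * (u - l * u') * v) = 0)

/-- the Hodge norm. -/
noncomputable def Nm (G : ℕ → Submodule ℝ A) (D : A →ₗ[ℝ] ℝ) (l : A) : ℕ → A → A → ℝ
  | 0, B, u => D (B * u ^ 2)
  | (m + 1), B, u => (-1) ^ (m + 1) * D (B * (u - l * pick G D l m B u) ^ 2) +
      Nm G D l m (B * l ^ 2) (pick G D l m B u)

variable {G : ℕ → Submodule ℝ A} {K : Set A} {N : ℕ} {D : A →ₗ[ℝ] ℝ} {l : A}

theorem KP.sq {r : ℕ} {B : A} (hB : KP K r B) (hl : l ∈ K) : KP K (r + 2) (B * l ^ 2) := by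
  have := KP.cons hl (KP.cons hl hB)
  have e : B * l ^ 2 = l * (l * B) := by ring
  rw [e]; exact this

theorem KP.snoc {r : ℕ} {B : A} (hB : KP K r B) (hl : l ∈ K) : KP K (r + 1) (B * l) := by
  rw [mul_comm]; exact KP.cons hl hB

theorem KP.mem (hG : Gr G) (hK : K ⊆ G 1) {r : ℕ} {B : A} (hB : KP K r B) : B ∈ G r := by
  induction hB with
  | one => exact hG.one
  | cons hb _ ih => rw [add_comm]; exact hG.mul (hK hb) ih

theorem KP.mul {r s : ℕ} {B C : A} (hB : KP K r B) (hC : KP K s C) : KP K (r + s) (B * C) := by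
  induction hB with
  | one => simpa using hC
  | cons hb _ ih => rw [mul_assoc, add_right_comm]; exact KP.cons hb ih

theorem KP.pow (hl : l ∈ K) (n : ℕ) : KP K n (l ^ n) := by
  induction n with
  | zero => simpa using KP.one
  | succ n ih => rw [pow_succ']; exact KP.cons hl ih

theorem KP.mono {K' : Set A} (h : K ⊆ K') {r : ℕ} {B : A} (hB : KP K r B) : KP K' r B := by
  induction hB with
  | one => exact KP.one
  | cons hb _ ih => exact KP.cons (h hb) ih

theorem KP.split {r s n : ℕ} (hn : n = r + s) {P : A} (hP : KP K n P) :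
    ∃ P₁ P₂, KP K r P₁ ∧ KP K s P₂ ∧ P = P₁ * P₂ := by
  induction r generalizing n P with
  | zero => 
    refine ⟨1, P, KP.one, ?_, by simp⟩
    have : n = s := by omega
    rwa [← this]
  | succ r ih =>
    have hn' : n = (r + s) + 1 := by omega
    subst hn'
    cases hP with
    | cons hb hB =>
      obtain ⟨P₁, P₂, h1, h2, h3⟩ := ih rfl hB
      refine ⟨_ * P₁, P₂, KP.cons hb h1, h2, ?_⟩
      rw [h3, mul_assoc]

/-- existence of the Lefschetz part. -/
theorem exists_pick (hG : Gr G) (hK : K ⊆ G 1) (h : MHR G K N D) {m r : ℕ}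
    (hN : 2 * (m + 1) + r = N) {B : A} (hB : KP K r B) (hl : l ∈ K) {u : A} (hu : u ∈ G (m + 1)) :
    ∃ u' ∈ G m, ∀ v ∈ G m, D (B * l * (u - l * u') * v) = 0 := by
  have := hG.fd m
  -- the form and the functional on `G m`
  let β : (G m) →ₗ[ℝ] (G m) →ₗ[ℝ] ℝ :=
    LinearMap.mk₂ ℝ (fun a b => D (B * l ^ 2 * (a : A) * (b : A)))
      (fun a a' b => by simp [mul_add, add_mul]) (fun c a b => by simp)
      (fun a b b' => by simp [mul_add]) (fun c a b => by simp)
  let φ : (G m) →ₗ[ℝ] ℝ :=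
    { toFun := fun v => D (B * l * u * (v : A))
      map_add' := fun v w => by simp [mul_add]
      map_smul' := fun c v => by simp }
  obtain ⟨a, ha⟩ := repr_of_ker β (fun x y => by
      simp only [β, LinearMap.mk₂_apply]; congr 1; ring) φ (by
    intro x hx
    have hx' : ∀ y ∈ G m, D (B * l ^ 2 * (x : A) * y) = 0 := fun y hy => hx ⟨y, hy⟩
    have h1 := h m (r + 2) (by omega) (B * l ^ 2) (hB.sq hl) l hl x x.2 (by
      intro j hj v hv
      have h2 : (l * v) ∈ G m := by rw [← hj, add_comm]; exact hG.mul (hK hl) hv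
      have h3 := hx' _ h2
      rw [← h3]; congr 1; ring)
    have h4 : D (B * l ^ 2 * (x : A) ^ 2) = 0 := by
      have := hx' x x.2
      rw [← this]; congr 1; ring
    have h5 := h1.2 h4 (B * l * u) (by
      have : B * l * u ∈ G (r + 1 + (m + 1)) := hG.mul (hG.mul (hB.mem hG hK) (hK hl)) hu
      have e : r + 1 + (m + 1) = m + (r + 2) := by omega
      rwa [e] at this)
    show D (B * l * u * (x : A)) = 0
    rw [← h5]; congr 1; ring)
  refine ⟨a, a.2, fun v hv => ?_⟩
  have := ha ⟨v, hv⟩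
  have e1 : D (B * l ^ 2 * (a : A) * v) = D (B * l * u * v) := this
  have e2 : B * l * (u - l * (a : A)) * v = B * l * u * v - B * l ^ 2 * (a : A) * v := by ring
  rw [e2, map_sub, e1, sub_self]

theorem pick_spec (hG : Gr G) (hK : K ⊆ G 1) (h : MHR G K N D) {m r : ℕ}
    (hN : 2 * (m + 1) + r = N) {B : A} (hB : KP K r B) (hl : l ∈ K) {u : A} (hu : u ∈ G (m + 1)) :
    pick G D l m B u ∈ G m ∧
      ∀ v ∈ G m, D (B * l * (u - l * pick G D l m B u) * v) = 0 :=
  Classical.epsilon_spec (p := fun u' => u' ∈ G m ∧ ∀ v ∈ G m, D (B * l * (u - l * u') * v) = 0)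
    (by obtain ⟨u', h1, h2⟩ := exists_pick hG hK h hN hB hl hu; exact ⟨u', h1, h2⟩)

/-- the norm depends only on the class. -/
theorem Nm_congr (hG : Gr G) (hK : K ⊆ G 1) (h : MHR G K N D) (hl : l ∈ K) {m : ℕ} :
    ∀ {r : ℕ} (_ : 2 * m + r = N) {B : A} (_ : KP K r B) {u v : A} (_ : u ∈ G m)
    (_ : v ∈ G m) (_ : ∀ w ∈ G m, D (B * (u - v) * w) = 0),
    Nm G D l m B u = Nm G D l m B v := by
  induction m with
  | zero =>
    intro r hN B hB u v hu hv huv
    have h1 := huv u hu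
    have h2 := huv v hv
    show D (B * u ^ 2) = D (B * v ^ 2)
    have e : B * u ^ 2 = B * v ^ 2 + (B * (u - v) * u + B * (u - v) * v) := by ring
    rw [e, map_add, map_add, h1, h2]; simp
  | succ m ih =>
    intro r hN B hB u v hu hv huv
    obtain ⟨a1, a2⟩ := pick_spec hG hK h hN hB hl hu
    obtain ⟨b1, b2⟩ := pick_spec hG hK h hN hB hl hv
    set u' := pick G D l m B u with hu'
    set v' := pick G D l m B v with hv'
    have c1 : ∀ w ∈ G m, D (B * l ^ 2 * (u' - v') * w) = 0 := by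
      intro w hw
      have h1 := huv (l * w) (by rw [add_comm]; exact hG.mul (hK hl) hw)
      have e : B * l ^ 2 * (u' - v') * w = B * (u - v) * (l * w)
        - (B * l * (u - l * u') * w - B * l * (v - l * v') * w) := by ring
      rw [e, map_sub, map_sub, h1, a2 w hw, b2 w hw]; simp
    have c2 : ∀ w ∈ G (m + 1), D (B * ((u - l * u') - (v - l * v')) * w) = 0 := by
      intro w hw
      obtain ⟨w', hw', hw2⟩ := exists_pick hG hK h hN hB hl hw
      have h1 := huv w hw
      have h2 := c1 w' hw'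
      have h3 := hw2 (u' - v') (Submodule.sub_mem _ a1 b1)
      have e : B * ((u - l * u') - (v - l * v')) * w = B * (u - v) * w
        - (B * l * (w - l * w') * (u' - v') + B * l ^ 2 * (u' - v') * w') := by ring
      rw [e, map_sub, map_add, h1, h2, h3]; simp
    have p1 : (u - l * u') ∈ G (m + 1) :=
      Submodule.sub_mem _ hu (by rw [add_comm]; exact hG.mul (hK hl) a1)
    have p2 : (v - l * v') ∈ G (m + 1) :=
      Submodule.sub_mem _ hv (by rw [add_comm]; exact hG.mul (hK hl) b1)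
    have c3 : D (B * (u - l * u') ^ 2) = D (B * (v - l * v') ^ 2) := by
      have h1 := c2 _ p1
      have h2 := c2 _ p2
      have e : B * (u - l * u') ^ 2 = B * (v - l * v') ^ 2 +
        (B * ((u - l * u') - (v - l * v')) * (u - l * u') +
          B * ((u - l * u') - (v - l * v')) * (v - l * v')) := by ring
      rw [e, map_add, map_add, h1, h2]; simp
    have c4 := ih (r := r + 2) (by omega) (hB.sq hl) a1 b1 c1
    show (-1) ^ (m + 1) * D (B * (u - l * u') ^ 2) + Nm G D l m (B * l ^ 2) u' =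
      (-1) ^ (m + 1) * D (B * (v - l * v') ^ 2) + Nm G D l m (B * l ^ 2) v'
    rw [c3, c4]

/-- the norm is computed by any Lefschetz decomposition. -/
theorem Nm_eq (hG : Gr G) (hK : K ⊆ G 1) (h : MHR G K N D) (hl : l ∈ K) {m r : ℕ}
    (hN : 2 * (m + 1) + r = N) {B : A} (hB : KP K r B) {u u' : A} (hu : u ∈ G (m + 1))
    (hu' : u' ∈ G m) (hp : ∀ v ∈ G m, D (B * l * (u - l * u') * v) = 0) :
    Nm G D l (m + 1) B u =
      (-1) ^ (m + 1) * D (B * (u - l * u') ^ 2) + Nm G D l m (B * l ^ 2) u' := by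
  obtain ⟨a1, a2⟩ := pick_spec hG hK h hN hB hl hu
  set u'' := pick G D l m B u with hu''
  have c1 : ∀ w ∈ G m, D (B * l ^ 2 * (u'' - u') * w) = 0 := by
    intro w hw
    have e : B * l ^ 2 * (u'' - u') * w = B * l * (u - l * u') * w -
      B * l * (u - l * u'') * w := by ring
    rw [e, map_sub, hp w hw, a2 w hw, sub_self]
  have c2 : D (B * (u - l * u'') ^ 2) = D (B * (u - l * u') ^ 2) := by
    have h1 := hp (u'' - u') (Submodule.sub_mem _ a1 hu')
    have h2 := c1 (u'' - u') (Submodule.sub_mem _ a1 hu')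
    have e : B * (u - l * u'') ^ 2 = B * (u - l * u') ^ 2 -
      2 • (B * l * (u - l * u') * (u'' - u')) + B * l ^ 2 * (u'' - u') * (u'' - u') := by
      simp only [nsmul_eq_mul]; push_cast; ring
    rw [e, map_add, map_sub, map_nsmul, h1, h2]; simp
  have c3 := Nm_congr hG hK h hl (by omega) (hB.sq hl) a1 hu' c1
  show (-1) ^ (m + 1) * D (B * (u - l * u'') ^ 2) + Nm G D l m (B * l ^ 2) u'' = _
  rw [c2, c3]

theorem Nm_nonneg (hG : Gr G) (hK : K ⊆ G 1) (h : MHR G K N D) (hl : l ∈ K) {m : ℕ} :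
    ∀ {r : ℕ} (_ : 2 * m + r = N) {B : A} (_ : KP K r B) {u : A} (_ : u ∈ G m),
    0 ≤ Nm G D l m B u := by
  induction m with
  | zero =>
    intro r hN B hB u hu
    have := (h 0 r hN B hB l hl u hu (fun j hj => by omega)).1
    show 0 ≤ D (B * u ^ 2)
    simpa using this
  | succ m ih =>
    intro r hN B hB u hu
    obtain ⟨a1, a2⟩ := pick_spec hG hK h hN hB hl hu
    have p1 : (u - l * pick G D l m B u) ∈ G (m + 1) :=
      Submodule.sub_mem _ hu (by rw [add_comm]; exact hG.mul (hK hl) a1)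
    have h1 := (h (m + 1) r hN B hB l hl _ p1 (fun j hj v hv => a2 v (by
      have : j = m := by omega
      rwa [← this]))).1
    have h2 := ih (r := r + 2) (by omega) (hB.sq hl) a1
    exact add_nonneg h1 h2

/-- elementary: Cauchy-Schwarz for a sum of two pieces. -/
theorem cs_add {a b p q r s : ℝ} (h1 : a ^ 2 ≤ p * q) (h2 : b ^ 2 ≤ r * s) (hp : 0 ≤ p)
    (hq : 0 ≤ q) (hr : 0 ≤ r) (hs : 0 ≤ s) : (a + b) ^ 2 ≤ (p + r) * (q + s) := by
  have h3 : (a * b) ^ 2 ≤ (p * s) * (r * q) := by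
    have := mul_le_mul h1 h2 (sq_nonneg b) (mul_nonneg hp hq)
    calc (a * b) ^ 2 = a ^ 2 * b ^ 2 := by ring
      _ ≤ p * q * (r * s) := this
      _ = _ := by ring
  have h4 : 2 * (a * b) ≤ p * s + r * q := by
    have h5 : (2 * (a * b)) ^ 2 ≤ (p * s + r * q) ^ 2 := by
      nlinarith [sq_nonneg (p * s - r * q)]
    exact le_of_sq_le_sq h5 (by positivity)
  nlinarith

/-- Cauchy-Schwarz for a form which is nonnegative on a subspace. -/
theorem cs_of_nonneg {P : Submodule ℝ A} {Q : A → A → ℝ}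
    (hadd : ∀ x y, ∀ t : ℝ, Q (x + t • y) (x + t • y) = Q x x + 2 * t * Q x y + t ^ 2 * Q y y)
    (hpos : ∀ x ∈ P, 0 ≤ Q x x) {x y : A} (hx : x ∈ P) (hy : y ∈ P) :
    (Q x y) ^ 2 ≤ Q x x * Q y y := by
  have h1 : ∀ t : ℝ, 0 ≤ Q y y * (t * t) + (2 * Q x y) * t + Q x x := by
    intro t
    have := hpos (x + t • y) (P.add_mem hx (P.smul_mem t hy))
    rw [hadd] at this
    nlinarith
  have h2 := discrim_le_zero h1
  unfold discrim at h2
  nlinarith

/-- (N1) -/
theorem Nm_cs (hG : Gr G) (hK : K ⊆ G 1) (h : MHR G K N D) (hl : l ∈ K) {m : ℕ} :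
    ∀ {r : ℕ} (_ : 2 * m + r = N) {B : A} (_ : KP K r B) {u v : A} (_ : u ∈ G m)
    (_ : v ∈ G m), (D (B * u * v)) ^ 2 ≤ Nm G D l m B u * Nm G D l m B v := by
  induction m with
  | zero =>
    intro r hN B hB u v hu hv
    have := cs_of_nonneg (P := G 0) (Q := fun x y => D (B * x * y)) (by
      intro x y t
      have e : B * (x + t • y) * (x + t • y) = B * x * x + (2 * t) • (B * x * y) +
        (t ^ 2) • (B * y * y) := by
        simp only [Algebra.smul_def, map_mul, map_pow, map_ofNat]; ring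
      simp only [e, map_add, map_smul, smul_eq_mul]) (by
      intro x hx
      have := (h 0 r hN B hB l hl x hx (fun j hj => by omega)).1
      have e : B * x * x = B * x ^ 2 := by ring
      simp only [e]; simpa using this) hu hv
    have e1 : B * u * u = B * u ^ 2 := by ring
    have e2 : B * v * v = B * v ^ 2 := by ring
    simp only [e1, e2] at this
    exact this
  | succ m ih =>
    intro r hN B hB u v hu hv
    obtain ⟨a1, a2⟩ := pick_spec hG hK h hN hB hl hu
    obtain ⟨b1, b2⟩ := pick_spec hG hK h hN hB hl hv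
    set u' := pick G D l m B u with hu'
    set v' := pick G D l m B v with hv'
    have p1 : (u - l * u') ∈ G (m + 1) :=
      Submodule.sub_mem _ hu (by rw [add_comm]; exact hG.mul (hK hl) a1)
    have p2 : (v - l * v') ∈ G (m + 1) :=
      Submodule.sub_mem _ hv (by rw [add_comm]; exact hG.mul (hK hl) b1)
    -- the primitive subspace
    let P : Submodule ℝ A :=
      { carrier := {x | x ∈ G (m + 1) ∧ ∀ w ∈ G m, D (B * l * x * w) = 0}
        add_mem' := fun {x y} hx hy => ⟨Submodule.add_mem _ hx.1 hy.1, fun w hw => by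
          have e : B * l * (x + y) * w = B * l * x * w + B * l * y * w := by ring
          rw [e, map_add, hx.2 w hw, hy.2 w hw, add_zero]⟩
        zero_mem' := ⟨Submodule.zero_mem _, fun w _ => by simp⟩
        smul_mem' := fun c x hx => ⟨Submodule.smul_mem _ c hx.1, fun w hw => by
          have e : B * l * (c • x) * w = c • (B * l * x * w) := by simp
          rw [e, map_smul, hx.2 w hw, smul_zero]⟩ }
    have h1 := cs_of_nonneg (P := P) (Q := fun x y => (-1) ^ (m + 1) * D (B * x * y)) (by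
      intro x y t
      have e : B * (x + t • y) * (x + t • y) = B * x * x + (2 * t) • (B * x * y) +
        (t ^ 2) • (B * y * y) := by
        simp only [Algebra.smul_def, map_mul, map_pow, map_ofNat]; ring
      simp only [e, map_add, map_smul, smul_eq_mul]; ring) (by
      intro x hx
      have := (h (m + 1) r hN B hB l hl x hx.1 (fun j hj v hv => hx.2 v (by
        have : j = m := by omega
        rwa [← this]))).1
      have e : B * x * x = B * x ^ 2 := by ring
      simp only [e]; exact this) (x := u - l * u') (y := v - l * v') ⟨p1, a2⟩ ⟨p2, b2⟩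
    have e1 : B * (u - l * u') * (u - l * u') = B * (u - l * u') ^ 2 := by ring
    have e2 : B * (v - l * v') * (v - l * v') = B * (v - l * v') ^ 2 := by ring
    simp only [e1, e2] at h1
    have h1' : (D (B * (u - l * u') * (v - l * v'))) ^ 2 ≤
        ((-1) ^ (m + 1) * D (B * (u - l * u') ^ 2)) *
          ((-1) ^ (m + 1) * D (B * (v - l * v') ^ 2)) := by
      refine le_trans (le_of_eq ?_) h1
      rw [mul_pow, ← pow_mul, mul_comm (m + 1) 2, pow_mul]; simp
    have h2 := ih (r := r + 2) (by omega) (hB.sq hl) a1 b1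
    have q1 := (h (m + 1) r hN B hB l hl _ p1 (fun j hj v hv => a2 v (by
      have : j = m := by omega
      rwa [← this]))).1
    have q2 := (h (m + 1) r hN B hB l hl _ p2 (fun j hj v hv => b2 v (by
      have : j = m := by omega
      rwa [← this]))).1
    have n1 := Nm_nonneg hG hK h hl (m := m) (r := r + 2) (by omega) (hB.sq hl) a1
    have n2 := Nm_nonneg hG hK h hl (m := m) (r := r + 2) (by omega) (hB.sq hl) b1
    have h3 := cs_add h1' h2 q1 q2 n1 n2
    have e3 : D (B * u * v) = D (B * (u - l * u') * (v - l * v')) +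
        D (B * l ^ 2 * u' * v') := by
      have z1 := a2 v' b1
      have z2 := b2 u' a1
      have e : B * u * v = (B * (u - l * u') * (v - l * v') + B * l ^ 2 * u' * v') +
        (B * l * (u - l * u') * v' + B * l * (v - l * v') * u') := by ring
      rw [e, map_add, map_add, map_add, z1, z2]; simp
    rw [e3]
    exact h3

/-- every element has a partner (Riesz). -/
theorem Nm_riesz (hG : Gr G) (hK : K ⊆ G 1) (h : MHR G K N D) (hl : l ∈ K) {m : ℕ} :
    ∀ {r : ℕ} (_ : 2 * m + r = N) {B : A} (_ : KP K r B) {u : A} (_ : u ∈ G m),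
    ∃ v ∈ G m, D (B * u * v) = Nm G D l m B u ∧ Nm G D l m B v = Nm G D l m B u := by
  induction m with
  | zero =>
    intro r hN B hB u hu
    refine ⟨u, hu, ?_, rfl⟩
    show D (B * u * u) = D (B * u ^ 2)
    congr 1; ring
  | succ m ih =>
    intro r hN B hB u hu
    obtain ⟨a1, a2⟩ := pick_spec hG hK h hN hB hl hu
    set u' := pick G D l m B u with hu'
    have p1 : (u - l * u') ∈ G (m + 1) :=
      Submodule.sub_mem _ hu (by rw [add_comm]; exact hG.mul (hK hl) a1)
    obtain ⟨v', hv', e1, e2⟩ := ih (r := r + 2) (by omega) (hB.sq hl) a1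
    have hv : ((-1 : ℝ) ^ (m + 1)) • (u - l * u') + l * v' ∈ G (m + 1) :=
      Submodule.add_mem _ (Submodule.smul_mem _ _ p1)
        (by rw [add_comm]; exact hG.mul (hK hl) hv')
    have hprim : ∀ w ∈ G m, D (B * l * ((((-1 : ℝ) ^ (m + 1)) • (u - l * u') + l * v') -
        l * v') * w) = 0 := by
      intro w hw
      have e : B * l * ((((-1 : ℝ) ^ (m + 1)) • (u - l * u') + l * v') - l * v') * w =
        ((-1 : ℝ) ^ (m + 1)) • (B * l * (u - l * u') * w) := by
        rw [add_sub_cancel_right]; simp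
      rw [e, map_smul, a2 w hw, smul_zero]
    refine ⟨_, hv, ?_, ?_⟩
    · have z1 := a2 v' hv'
      have z2 := a2 u' a1
      have e : B * u * (((-1 : ℝ) ^ (m + 1)) • (u - l * u') + l * v') =
          ((-1 : ℝ) ^ (m + 1)) • (B * (u - l * u') ^ 2) +
          ((-1 : ℝ) ^ (m + 1)) • (B * l * (u - l * u') * u') +
          (B * l * (u - l * u') * v' + B * l ^ 2 * u' * v') := by
        simp only [Algebra.smul_def]; ring
      rw [e, map_add, map_add, map_add, map_smul, map_smul, z1, z2, e1]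
      show _ = (-1) ^ (m + 1) * D (B * (u - l * u') ^ 2) + Nm G D l m (B * l ^ 2) u'
      simp
    · rw [Nm_eq hG hK h hl hN hB hv hv' hprim, e2]
      show _ = (-1) ^ (m + 1) * D (B * (u - l * u') ^ 2) + Nm G D l m (B * l ^ 2) u'
      rw [add_sub_cancel_right]
      have e : B * (((-1 : ℝ) ^ (m + 1)) • (u - l * u')) ^ 2 = B * (u - l * u') ^ 2 := by
        rw [smul_pow, ← pow_mul, mul_comm (m + 1) 2, pow_mul]; simp
      rw [e]

/-- (N2) -/
theorem Nm_le (hG : Gr G) (hK : K ⊆ G 1) (h : MHR G K N D) (hl : l ∈ K) {m r : ℕ}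
    (hN : 2 * (m + 1) + r = N) {B : A} (hB : KP K r B) {u : A} (hu : u ∈ G (m + 1)) {M : ℝ}
    (hM0 : 0 ≤ M)
    (hM : ∀ v ∈ G m, (D (B * l * u * v)) ^ 2 ≤ M * Nm G D l m (B * l ^ 2) v) :
    Nm G D l (m + 1) B u ≤ (-1) ^ (m + 1) * D (B * u ^ 2) + 2 * M := by
  obtain ⟨a1, a2⟩ := pick_spec hG hK h hN hB hl hu
  set u' := pick G D l m B u with hu'
  have n0 := Nm_nonneg hG hK h hl (m := m) (r := r + 2) (by omega) (hB.sq hl) a1
  have key : Nm G D l m (B * l ^ 2) u' ≤ M := by
    obtain ⟨v, hv, e1, e2⟩ := Nm_riesz hG hK h hl (m := m) (r := r + 2) (by omega) (hB.sq hl) a1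
    have h1 := hM v hv
    have e3 : D (B * l * u * v) = D (B * l ^ 2 * u' * v) := by
      have z := a2 v hv
      have e : B * l * u * v = B * l * (u - l * u') * v + B * l ^ 2 * u' * v := by ring
      rw [e, map_add, z, zero_add]
    rw [e3, e1, e2] at h1
    by_contra hcon
    push Not at hcon
    have : 0 < Nm G D l m (B * l ^ 2) u' := lt_of_le_of_lt hM0 hcon
    nlinarith
  have h2 := Nm_cs hG hK h hl (m := m) (r := r + 2) (by omega) (hB.sq hl) a1 a1
  have h3 : -(Nm G D l m (B * l ^ 2) u') ≤ (-1) ^ (m + 1) * D (B * l ^ 2 * u' * u') := by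
    have h4 : ((-1) ^ (m + 1) * D (B * l ^ 2 * u' * u')) ^ 2 ≤
        (Nm G D l m (B * l ^ 2) u') ^ 2 := by
      rw [mul_pow, ← pow_mul, mul_comm (m + 1) 2, pow_mul]
      simpa [sq] using h2
    exact (abs_le_of_sq_le_sq' h4 n0).1
  have e4 : D (B * u ^ 2) = D (B * (u - l * u') ^ 2) + D (B * l ^ 2 * u' * u') := by
    have z := a2 u' a1
    have e : B * u ^ 2 = (B * (u - l * u') ^ 2 + B * l ^ 2 * u' * u') +
      2 • (B * l * (u - l * u') * u') := by
      simp only [nsmul_eq_mul]; push_cast; ring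
    rw [e, map_add, map_add, map_nsmul, z]; simp
  show (-1) ^ (m + 1) * D (B * (u - l * u') ^ 2) + Nm G D l m (B * l ^ 2) u' ≤ _
  rw [e4, mul_add]
  linarith

/-- constants of (C) -/
noncomputable def Cc : ℕ → ℝ
  | 0 => 1
  | (m + 1) => 1 + 12 * Cc m

theorem Cc_pos : ∀ m, 1 ≤ Cc m
  | 0 => le_refl _
  | (m + 1) => by have := Cc_pos m; show 1 ≤ 1 + 12 * Cc m; linarith

/-- `(O_{m+1})` from `(C_m)`. -/
theorem normO_of (hG : Gr G) (hK : K ⊆ G 1) (h : MHR G K N D) (hl : l ∈ K) {m : ℕ} {C : ℝ}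
    (hC0 : 0 ≤ C)
    (hC : ∀ {r : ℕ} (_ : 2 * m + (r + 1) = N) {B : A} (_ : KP K r B) {b : A} (_ : b ∈ K)
      (_ : l - b ∈ K) {z : A} (_ : z ∈ G m),
      Nm G D l m (B * b) z ≤ C * Nm G D l m (B * l) z)
    {r : ℕ} (hN : 2 * (m + 1) + r = N) {B : A} (hB : KP K r B) {b : A} (hb : b ∈ K)
    (hc : l - b ∈ K) {w : A} (hw : w ∈ G m) :
    Nm G D l (m + 1) B (b * w) ≤ 3 * C * Nm G D l m (B * b * l) w := by
  have hbw : b * w ∈ G (m + 1) := by rw [add_comm]; exact hG.mul (hK hb) hw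
  have n1 : 0 ≤ Nm G D l m (B * b * l) w :=
    Nm_nonneg hG hK h hl (r := r + 2) (by omega) ((hB.snoc hb).snoc hl) hw
  -- first term
  have h1 : (-1) ^ (m + 1) * D (B * (b * w) ^ 2) ≤ C * Nm G D l m (B * b * l) w := by
    have e : B * (b * w) ^ 2 = B * b * b * w * w := by ring
    have h2 := Nm_cs hG hK h hl (r := r + 2) (by omega) ((hB.snoc hb).snoc hb) hw hw
    have n2 : 0 ≤ Nm G D l m (B * b * b) w :=
      Nm_nonneg hG hK h hl (r := r + 2) (by omega) ((hB.snoc hb).snoc hb) hw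
    have h3 : ((-1) ^ (m + 1) * D (B * b * b * w * w)) ^ 2 ≤ (Nm G D l m (B * b * b) w) ^ 2 := by
      rw [mul_pow, ← pow_mul, mul_comm (m + 1) 2, pow_mul]
      simpa [sq] using h2
    rw [e]
    refine le_trans (abs_le_of_sq_le_sq' h3 n2).2 ?_
    exact hC (r := r + 1) (by omega) (hB.snoc hb) hb hc hw
  -- second term
  have h4 : ∀ v ∈ G m, (D (B * l * (b * w) * v)) ^ 2 ≤
      (C * Nm G D l m (B * b * l) w) * Nm G D l m (B * l ^ 2) v := by
    intro v hv
    have e : B * l * (b * w) * v = B * b * l * w * v := by ring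
    have h5 := Nm_cs hG hK h hl (r := r + 2) (by omega) ((hB.snoc hb).snoc hl) hw hv
    have h6 := hC (r := r + 1) (by omega) (hB.snoc hl) hb hc hv
    have e2 : B * l * b = B * b * l := by ring
    have e3 : B * l * l = B * l ^ 2 := by ring
    rw [e2, e3] at h6
    rw [e]
    refine le_trans h5 ?_
    calc Nm G D l m (B * b * l) w * Nm G D l m (B * b * l) v
        ≤ Nm G D l m (B * b * l) w * (C * Nm G D l m (B * l ^ 2) v) :=
          mul_le_mul_of_nonneg_left h6 n1
      _ = _ := by ring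
  have h7 := Nm_le hG hK h hl hN hB hbw (mul_nonneg hC0 n1) h4
  linarith

/-- (C_m) -/
theorem normC (hG : Gr G) (hK : K ⊆ G 1) (h : MHR G K N D) (hl : l ∈ K) {m : ℕ} :
    ∀ {r : ℕ} (_ : 2 * m + (r + 1) = N) {B : A} (_ : KP K r B) {b : A} (_ : b ∈ K)
      (_ : l - b ∈ K) {z : A} (_ : z ∈ G m),
      Nm G D l m (B * b) z ≤ Cc m * Nm G D l m (B * l) z := by
  induction m with
  | zero =>
    intro r hN B hB b hb hc z hz
    show D (B * b * z ^ 2) ≤ 1 * D (B * l * z ^ 2)
    have h1 := (h 0 (r + 1) hN (B * (l - b)) (hB.snoc hc) l hl z hz (fun j hj => by omega)).1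
    have e : B * (l - b) * z ^ 2 = B * l * z ^ 2 - B * b * z ^ 2 := by ring
    rw [e, map_sub] at h1
    simp at h1
    linarith
  | succ m ih =>
    intro r hN B hB b hb hc z hz
    have n1 : 0 ≤ Nm G D l (m + 1) (B * l) z :=
      Nm_nonneg hG hK h hl (r := r + 1) hN (hB.snoc hl) hz
    have hC0 : 0 ≤ Cc m := by have := Cc_pos m; linarith
    -- the hypothesis of (N2), for `b` and for `c`
    have key : ∀ b ∈ K, l - b ∈ K → ∀ v ∈ G m, (D (B * b * l * z * v)) ^ 2 ≤
        (3 * Cc m * Nm G D l (m + 1) (B * l) z) * Nm G D l m (B * b * l ^ 2) v := by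
      intro b hb hc v hv
      have hbv : b * v ∈ G (m + 1) := by rw [add_comm]; exact hG.mul (hK hb) hv
      have h1 := Nm_cs hG hK h hl (r := r + 1) hN (hB.snoc hl) hz hbv
      have h2 := normO_of hG hK h hl hC0 ih (r := r + 1) hN (hB.snoc hl) hb hc hv
      have e : B * b * l * z * v = B * l * z * (b * v) := by ring
      have e2 : B * l * b * l = B * b * l ^ 2 := by ring
      rw [e2] at h2
      rw [e]
      refine le_trans h1 ?_
      calc Nm G D l (m + 1) (B * l) z * Nm G D l (m + 1) (B * l) (b * v)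
          ≤ Nm G D l (m + 1) (B * l) z * (3 * Cc m * Nm G D l m (B * b * l ^ 2) v) :=
            mul_le_mul_of_nonneg_left h2 n1
        _ = _ := by ring
    have M0 : 0 ≤ 3 * Cc m * Nm G D l (m + 1) (B * l) z := by positivity
    have h3 := Nm_le hG hK h hl hN (hB.snoc hb) hz M0 (key b hb hc)
    have hc' : l - (l - b) ∈ K := by rwa [sub_sub_cancel]
    have h4 := Nm_le hG hK h hl hN (hB.snoc hc) hz M0 (key (l - b) hc hc')
    have n2 : 0 ≤ Nm G D l (m + 1) (B * (l - b)) z :=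
      Nm_nonneg hG hK h hl (r := r + 1) hN (hB.snoc hc) hz
    have e5 : D (B * b * z ^ 2) = D (B * l * z ^ 2) - D (B * (l - b) * z ^ 2) := by
      rw [← map_sub]; congr 1; ring
    have h6 : (-1) ^ (m + 1) * D (B * l * z ^ 2) ≤ Nm G D l (m + 1) (B * l) z := by
      have h7 := Nm_cs hG hK h hl (r := r + 1) hN (hB.snoc hl) hz hz
      have h8 : ((-1) ^ (m + 1) * D (B * l * z * z)) ^ 2 ≤
          (Nm G D l (m + 1) (B * l) z) ^ 2 := by
        rw [mul_pow, ← pow_mul, mul_comm (m + 1) 2, pow_mul]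
        simpa [sq] using h7
      have e : B * l * z ^ 2 = B * l * z * z := by ring
      rw [e]
      exact (abs_le_of_sq_le_sq' h8 n1).2
    show Nm G D l (m + 1) (B * b) z ≤ (1 + 12 * Cc m) * Nm G D l (m + 1) (B * l) z
    rw [e5, mul_sub] at h3
    nlinarith

/-- (O_{m+1}) -/
theorem normO (hG : Gr G) (hK : K ⊆ G 1) (h : MHR G K N D) (hl : l ∈ K) {m : ℕ}
    {r : ℕ} (hN : 2 * (m + 1) + r = N) {B : A} (hB : KP K r B) {b : A} (hb : b ∈ K)
    (hc : l - b ∈ K) {w : A} (hw : w ∈ G m) :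
    Nm G D l (m + 1) B (b * w) ≤ 3 * Cc m * Nm G D l m (B * b * l) w :=
  normO_of hG hK h hl (by have := Cc_pos m; linarith) (fun h1 _ h2 _ h3 h4 _ h5 =>
    normC hG hK h hl h1 h2 h3 h4 h5) hN hB hb hc hw

/-- constants of (H) -/
noncomputable def Hc : ℕ → ℝ
  | 0 => 1
  | (m + 1) => 3 * Cc m * Hc m

theorem Hc_pos : ∀ m, 0 < Hc m
  | 0 => one_pos
  | (m + 1) => by
    have := Cc_pos m
    have := Hc_pos m
    show 0 < 3 * Cc m * Hc m
    positivity

/-- the elements `b` of `K` with `l - b` in `K`. -/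
def Kl (K : Set A) (l : A) : Set A := {b | b ∈ K ∧ l - b ∈ K}

/-- (H) -/
theorem normH (hG : Gr G) (hK : K ⊆ G 1) (h : MHR G K N D) (hl : l ∈ K) {m : ℕ} :
    ∀ {r : ℕ} (_ : 2 * m + r = N) {B : A} (_ : KP K r B) {P : A} (_ : KP (Kl K l) m P),
    Nm G D l m B P ≤ Hc m * D (B * P * l ^ m) := by
  induction m with
  | zero =>
    intro r hN B hB P hP
    cases hP
    show D (B * 1 ^ 2) ≤ 1 * D (B * 1 * l ^ 0)
    simp
  | succ m ih =>
    intro r hN B hB P hP
    cases hP with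
    | @cons n b P' hb hP' =>
      have hP'G : P' ∈ G m := hP'.mem hG (fun x hx => hK hx.1)
      have h1 := normO hG hK h hl hN hB hb.1 hb.2 hP'G
      have h2 := ih (r := r + 2) (by omega) ((hB.snoc hb.1).snoc hl) hP'
      have hC := Cc_pos m
      refine le_trans h1 ?_
      have e : B * b * l * P' * l ^ m = B * (b * P') * l ^ (m + 1) := by ring
      rw [e] at h2
      calc 3 * Cc m * Nm G D l m (B * b * l) P'
          ≤ 3 * Cc m * (Hc m * D (B * (b * P') * l ^ (m + 1))) :=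
            mul_le_mul_of_nonneg_left h2 (by positivity)
        _ = Hc (m + 1) * D (B * (b * P') * l ^ (m + 1)) := by
            show _ = 3 * Cc m * Hc m * _
            ring

/-- iterated (C) -/
theorem normC_iter (hG : Gr G) (hK : K ⊆ G 1) (h : MHR G K N D) (hl : l ∈ K) {m : ℕ} :
    ∀ {r s : ℕ} (_ : 2 * m + (r + s) = N) {B : A} (_ : KP K s B) {P : A}
    (_ : KP (Kl K l) r P) {z : A} (_ : z ∈ G m),
    Nm G D l m (B * P) z ≤ Cc m ^ r * Nm G D l m (B * l ^ r) z := by
  intro r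
  induction r with
  | zero =>
    intro s hN B hB P hP z hz
    cases hP
    simp
  | succ r ih =>
    intro s hN B hB P hP z hz
    cases hP with
    | @cons n b P' hb hP' =>
      have hP'K : KP K r P' := hP'.mono (fun x hx => hx.1)
      have hC := Cc_pos m
      have h1 := normC hG hK h hl (m := m) (r := s + r) (by omega) (hB.mul hP'K) hb.1 hb.2 hz
      have e1 : B * (b * P') = B * P' * b := by ring
      have h2 := ih (s := s + 1) (by omega) (hB.snoc hl) hP' hz
      have e2 : B * P' * l = B * l * P' := by ring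
      have e3 : B * l * l ^ r = B * l ^ (r + 1) := by ring
      rw [e2] at h1
      rw [e3] at h2
      rw [e1]
      refine le_trans h1 ?_
      calc Cc m * Nm G D l m (B * l * P') z
          ≤ Cc m * (Cc m ^ r * Nm G D l m (B * l ^ (r + 1)) z) :=
            mul_le_mul_of_nonneg_left h2 (by positivity)
        _ = _ := by ring

/-- (I) -/
theorem normI (hG : Gr G) (hK : K ⊆ G 1) (h : MHR G K N D) (hl : l ∈ K) {m r : ℕ}
    (hN : 2 * m + r = N) {P : A} (hP : KP (Kl K l) (m + r) P) {w : A} (hw : w ∈ G m) :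
    (D (P * w)) ^ 2 ≤ (Hc m * Cc m ^ r) * D (P * l ^ m) * Nm G D l m (l ^ r) w := by
  obtain ⟨P₁, P₂, h1, h2, rfl⟩ := hP.split (r := m) (s := r) rfl
  have h2K : KP K r P₂ := h2.mono (fun x hx => hx.1)
  have h1G : P₁ ∈ G m := h1.mem hG (fun x hx => hK hx.1)
  have h3 := Nm_cs hG hK h hl hN h2K h1G hw
  have h4 := normH hG hK h hl hN h2K h1
  have h5 := normC_iter hG hK h hl (m := m) (r := r) (s := 0) (by omega) KP.one h2 hw
  rw [one_mul, one_mul] at h5
  have n1 : 0 ≤ Nm G D l m P₂ P₁ := Nm_nonneg hG hK h hl hN h2K h1G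
  have n2 : 0 ≤ Nm G D l m P₂ w := Nm_nonneg hG hK h hl hN h2K hw
  have e1 : P₁ * P₂ * w = P₂ * P₁ * w := by ring
  have e2 : P₂ * P₁ * l ^ m = P₁ * P₂ * l ^ m := by ring
  rw [e2] at h4
  rw [e1]
  calc (D (P₂ * P₁ * w)) ^ 2 ≤ Nm G D l m P₂ P₁ * Nm G D l m P₂ w := h3
    _ ≤ (Hc m * D (P₁ * P₂ * l ^ m)) * (Cc m ^ r * Nm G D l m (l ^ r) w) :=
      mul_le_mul h4 h5 n2 (le_trans n1 h4)
    _ = _ := by ring

/-! ### divisors -/

/-- the functional `x D`. -/
noncomputable def mulD (x : A) (D : A →ₗ[ℝ] ℝ) : A →ₗ[ℝ] ℝ := D ∘ₗ LinearMap.mulLeft ℝ x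

@[simp] theorem mulD_apply (x : A) (D : A →ₗ[ℝ] ℝ) (p : A) : mulD x D p = D (x * p) := rfl

/-- constants of (R^x) -/
noncomputable def Rx : ℕ → ℝ
  | 0 => 1
  | (m + 1) => 2 * Cc (m + 1) + 1 + 2 * (2 * Cc m + 1 + 2 * Rx m)

theorem Rx_pos : ∀ m, 0 < Rx m
  | 0 => one_pos
  | (m + 1) => by
    have h1 := Cc_pos (m + 1)
    have h2 := Cc_pos m
    have := Rx_pos m
    show 0 < 2 * Cc (m + 1) + 1 + 2 * (2 * Cc m + 1 + 2 * Rx m)
    linarith

/-- `|(-1)^m D(B z z)| ≤ N_B(z)`. -/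
theorem Nm_diag (hG : Gr G) (hK : K ⊆ G 1) (h : MHR G K N D) (hl : l ∈ K) {m r : ℕ}
    (hN : 2 * m + r = N) {B : A} (hB : KP K r B) {z : A} (hz : z ∈ G m) (e : ℕ) :
    -(Nm G D l m B z) ≤ (-1) ^ e * D (B * z ^ 2) ∧
      (-1) ^ e * D (B * z ^ 2) ≤ Nm G D l m B z := by
  have h7 := Nm_cs hG hK h hl hN hB hz hz
  have n1 := Nm_nonneg hG hK h hl hN hB hz
  have h8 : ((-1) ^ e * D (B * z * z)) ^ 2 ≤ (Nm G D l m B z) ^ 2 := by
    rw [mul_pow, ← pow_mul, mul_comm e 2, pow_mul]
    simpa [sq] using h7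
  have e : B * z ^ 2 = B * z * z := by ring
  rw [e]
  exact ⟨(abs_le_of_sq_le_sq' h8 n1).1, (abs_le_of_sq_le_sq' h8 n1).2⟩

/-- `(O^x_{m+1})` from `(R^x_m)`. -/
theorem normOx_of (hG : Gr G) (hK : K ⊆ G 1) (h : MHR G K (N + 1) D) {x : A} (hx : x ∈ G 1)
    (h' : MHR G K N (mulD x D)) (hl : l ∈ K) {β : ℝ} (hβ : 0 < β) {b c : A} (hb : b ∈ K)
    (hc : c ∈ K) (hbc : b + c = l) (hbx : b - c = β • x) {m : ℕ} {R : ℝ} (hR0 : 0 ≤ R)
    (hR : ∀ {r : ℕ} (_ : 2 * m + r = N) {B : A} (_ : KP K r B) {z : A} (_ : z ∈ G m),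
      β * Nm G (mulD x D) l m B z ≤ R * Nm G D l m (B * l) z)
    {r : ℕ} (hN : 2 * (m + 1) + r = N + 1) {B : A} (hB : KP K r B) {v : A} (hv : v ∈ G m) :
    Nm G D l (m + 1) B (β • x * v) ≤
      (2 * Cc m + 1 + 2 * R) * (β * Nm G (mulD x D) l m (B * l) v) := by
  have hc' : l - b = c := by rw [← hbc]; ring
  have hcK : l - b ∈ K := by rw [hc']; exact hc
  have hxv : β • x * v ∈ G (m + 1) := by
    rw [add_comm]; exact hG.mul (Submodule.smul_mem _ _ hx) hv
  have n1 : 0 ≤ Nm G (mulD x D) l m (B * l) v :=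
    Nm_nonneg hG hK h' hl (r := r + 1) (by omega) (hB.snoc hl) hv
  have h1 : (-1) ^ (m + 1) * D (B * (β • x * v) ^ 2) ≤
      (2 * Cc m + 1) * (β * Nm G (mulD x D) l m (B * l) v) := by
    have e0 : D (B * (β • x * v) ^ 2) = β * (2 * D (x * (B * b * v ^ 2)) -
        D (x * (B * l * v ^ 2))) := by
      have e : B * (β • x * v) ^ 2 = β • (2 • (x * (B * b * v ^ 2)) - x * (B * l * v ^ 2)) := by
        have e1 : B * (β • x * v) ^ 2 = β • (B * x * (β • x) * v ^ 2) := by
          simp only [Algebra.smul_def]; ring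
        rw [e1, ← hbx, ← hbc]
        congr 1
        simp only [nsmul_eq_mul]; push_cast; ring
      rw [e, map_smul, map_sub, map_nsmul]; simp
    have d1 := (Nm_diag hG hK h' hl (r := r + 1) (by omega) (hB.snoc hb) hv (m + 1)).2
    have d2 := (Nm_diag hG hK h' hl (r := r + 1) (by omega) (hB.snoc hl) hv (m + 1)).1
    have d3 := normC hG hK h' hl (m := m) (r := r) (by omega) hB hb hcK hv
    rw [mulD_apply] at d1 d2
    rw [e0]
    have : (-1) ^ (m + 1) * (β * (2 * D (x * (B * b * v ^ 2)) - D (x * (B * l * v ^ 2)))) =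
      β * (2 * ((-1) ^ (m + 1) * D (x * (B * b * v ^ 2))) -
        (-1) ^ (m + 1) * D (x * (B * l * v ^ 2))) := by ring
    rw [this]
    have h2 : 2 * ((-1) ^ (m + 1) * D (x * (B * b * v ^ 2))) -
        (-1) ^ (m + 1) * D (x * (B * l * v ^ 2)) ≤
        (2 * Cc m + 1) * Nm G (mulD x D) l m (B * l) v := by linarith
    calc β * _ ≤ β * ((2 * Cc m + 1) * Nm G (mulD x D) l m (B * l) v) :=
          mul_le_mul_of_nonneg_left h2 hβ.le
      _ = _ := by ring
  have h4 : ∀ w ∈ G m, (D (B * l * (β • x * v) * w)) ^ 2 ≤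
      (R * (β * Nm G (mulD x D) l m (B * l) v)) * Nm G D l m (B * l ^ 2) w := by
    intro w hw
    have e : B * l * (β • x * v) * w = β • (x * (B * l * v * w)) := by
      simp only [Algebra.smul_def]; ring
    have h5 := Nm_cs hG hK h' hl (r := r + 1) (by omega) (hB.snoc hl) hv hw
    have h6 := hR (r := r + 1) (by omega) (hB.snoc hl) hw
    have e3 : B * l * l = B * l ^ 2 := by ring
    rw [e3] at h6
    rw [mulD_apply] at h5
    rw [e, map_smul, smul_eq_mul, mul_pow]
    calc β ^ 2 * (D (x * (B * l * v * w))) ^ 2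
        ≤ β ^ 2 * (Nm G (mulD x D) l m (B * l) v * Nm G (mulD x D) l m (B * l) w) :=
          mul_le_mul_of_nonneg_left h5 (by positivity)
      _ = (β * Nm G (mulD x D) l m (B * l) v) * (β * Nm G (mulD x D) l m (B * l) w) := by ring
      _ ≤ (β * Nm G (mulD x D) l m (B * l) v) * (R * Nm G D l m (B * l ^ 2) w) :=
          mul_le_mul_of_nonneg_left h6 (by positivity)
      _ = _ := by ring
  have h7 := Nm_le hG hK h hl hN hB hxv (by positivity) h4
  linarith

/-- (R^x) -/
theorem normRx (hG : Gr G) (hK : K ⊆ G 1) (h : MHR G K (N + 1) D) {x : A} (hx : x ∈ G 1)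
    (h' : MHR G K N (mulD x D)) (hl : l ∈ K) {β : ℝ} (hβ : 0 < β) {b c : A} (hb : b ∈ K)
    (hc : c ∈ K) (hbc : b + c = l) (hbx : b - c = β • x) {m : ℕ} :
    ∀ {r : ℕ} (_ : 2 * m + r = N) {B : A} (_ : KP K r B) {z : A} (_ : z ∈ G m),
      β * Nm G (mulD x D) l m B z ≤ Rx m * Nm G D l m (B * l) z := by
  induction m with
  | zero =>
    intro r hN B hB z hz
    show β * D (x * (B * z ^ 2)) ≤ 1 * D (B * l * z ^ 2)
    have h1 := (h 0 (r + 1) (by omega) (B * c) (hB.snoc hc) l hl z hz (fun j hj => by omega)).1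
    have e : (2 : ℝ) • (B * c * z ^ 2) = B * l * z ^ 2 - β • (x * (B * z ^ 2)) := by
      have e1 : β • (x * (B * z ^ 2)) = (β • x) * (B * z ^ 2) := by simp
      rw [e1, ← hbx, ← hbc]
      rw [two_smul]; ring
    have h2 : 2 * D (B * c * z ^ 2) = D (B * l * z ^ 2) - β * D (x * (B * z ^ 2)) := by
      have := congrArg D e
      rw [map_smul, map_sub, map_smul] at this
      simpa using this
    simp only [pow_zero, one_mul] at h1
    linarith
  | succ m ih =>
    intro r hN B hB z hz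
    have hc' : l - b = c := by rw [← hbc]; ring
    have hcK : l - b ∈ K := by rw [hc']; exact hc
    have n1 : 0 ≤ Nm G D l (m + 1) (B * l) z :=
      Nm_nonneg hG hK h hl (r := r + 1) (by omega) (hB.snoc hl) hz
    have hO := fun {v : A} (hv : v ∈ G m) => normOx_of hG hK h hx h' hl hβ hb hc hbc hbx
      (Rx_pos m).le ih (r := r + 1) (by omega) (hB.snoc hl) hv
    have h1 : β * ((-1) ^ (m + 1) * D (x * (B * z ^ 2))) ≤
        (2 * Cc (m + 1) + 1) * Nm G D l (m + 1) (B * l) z := by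
      have e0 : β * D (x * (B * z ^ 2)) = 2 * D (B * b * z ^ 2) - D (B * l * z ^ 2) := by
        have e : β • (x * (B * z ^ 2)) = (2 : ℝ) • (B * b * z ^ 2) - B * l * z ^ 2 := by
          have e1 : β • (x * (B * z ^ 2)) = (β • x) * (B * z ^ 2) := by simp
          rw [e1, ← hbx, ← hbc]
          rw [two_smul]; ring
        have := congrArg D e
        rw [map_smul, map_sub, map_smul] at this
        simpa using this
      have d1 := (Nm_diag hG hK h hl (r := r + 1) (by omega) (hB.snoc hb) hz (m + 1)).2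
      have d2 := (Nm_diag hG hK h hl (r := r + 1) (by omega) (hB.snoc hl) hz (m + 1)).1
      have d3 := normC hG hK h hl (m := m + 1) (r := r) (by omega) hB hb hcK hz
      have : β * ((-1) ^ (m + 1) * D (x * (B * z ^ 2))) =
          (-1) ^ (m + 1) * (β * D (x * (B * z ^ 2))) := by ring
      rw [this, e0]
      linarith
    set O : ℝ := 2 * Cc m + 1 + 2 * Rx m with hOdef
    have hO0 : 0 ≤ O := by
      have := Cc_pos m
      have := Rx_pos m
      linarith
    have h4 : ∀ v ∈ G m, ((mulD x D) (B * l * z * v)) ^ 2 ≤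
        (O / β * Nm G D l (m + 1) (B * l) z) * Nm G (mulD x D) l m (B * l ^ 2) v := by
      intro v hv
      have hxv : β • x * v ∈ G (m + 1) := by
        rw [add_comm]; exact hG.mul (Submodule.smul_mem _ _ hx) hv
      have h5 := Nm_cs hG hK h hl (r := r + 1) (by omega) (hB.snoc hl) hz hxv
      have h6 := hO hv
      have e3 : B * l * l = B * l ^ 2 := by ring
      rw [e3] at h6
      have e : D (B * l * z * (β • x * v)) = β * D (x * (B * l * z * v)) := by
        have : B * l * z * (β • x * v) = β • (x * (B * l * z * v)) := by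
          simp only [Algebra.smul_def]; ring
        rw [this, map_smul, smul_eq_mul]
      rw [e, mul_pow] at h5
      rw [mulD_apply]
      have h7 : β ^ 2 * (D (x * (B * l * z * v))) ^ 2 ≤ Nm G D l (m + 1) (B * l) z *
          (O * (β * Nm G (mulD x D) l m (B * l ^ 2) v)) :=
        le_trans h5 (mul_le_mul_of_nonneg_left h6 n1)
      have h8 : (D (x * (B * l * z * v))) ^ 2 ≤ (Nm G D l (m + 1) (B * l) z *
          (O * (β * Nm G (mulD x D) l m (B * l ^ 2) v))) / β ^ 2 := by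
        rw [le_div_iff₀ (by positivity)]; linarith
      refine le_trans h8 (le_of_eq ?_)
      field_simp
    have h9 := Nm_le hG hK h' hl hN hB hz (by positivity) h4
    rw [mulD_apply] at h9
    have h10 : β * Nm G (mulD x D) l (m + 1) B z ≤
        β * ((-1) ^ (m + 1) * D (x * (B * z ^ 2))) + 2 * O * Nm G D l (m + 1) (B * l) z := by
      have := mul_le_mul_of_nonneg_left h9 hβ.le
      refine le_trans this (le_of_eq ?_)
      field_simp
    show _ ≤ (2 * Cc (m + 1) + 1 + 2 * (2 * Cc m + 1 + 2 * Rx m)) * _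
    rw [← hOdef]
    linarith

/-- (F) -/
theorem normF (hG : Gr G) (hK : K ⊆ G 1) {m : ℕ} (h : MHR G K (2 * m + 3) D) (hl : l ∈ K)
    {a : A} (ha : a ∈ G (m + 1)) {M : ℝ} (hM0 : 0 ≤ M)
    (hM : ∀ v ∈ G m, (D (l ^ 2 * a * v)) ^ 2 ≤ M * Nm G D l m (l ^ 3) v) :
    -(2 * M) ≤ (-1) ^ (m + 1) * D (l * a ^ 2) := by
  have h1 := Nm_le hG hK h hl (r := 1) (by omega) (KP.pow hl 1) ha hM0 (by
    intro v hv
    have := hM v hv
    have e1 : l ^ 1 * l * a * v = l ^ 2 * a * v := by ring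
    have e2 : l ^ 1 * l ^ 2 = l ^ 3 := by ring
    rw [e1, e2]
    exact this)
  have h2 := Nm_nonneg hG hK h hl (m := m + 1) (r := 1) (by omega) (KP.pow hl 1) ha
  rw [pow_one] at h1 h2
  linarith

/-- (EI), open version -/
theorem normEI (hG : Gr G) (hK : K ⊆ G 1) {m : ℕ} (h : MHR G K (2 * m + 3) D) {x : A}
    (hx : x ∈ G 1) (h' : MHR G K (2 * m + 2) (mulD x D)) (hl : l ∈ K) {β : ℝ} (hβ : 0 < β)
    {b c : A} (hb : b ∈ K) (hc : c ∈ K) (hbc : b + c = l) (hbx : b - c = β • x)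
    {P : A} (hP : KP (Kl K l) (m + 2) P) {v : A} (hv : v ∈ G m) :
    (D (β • x * P * v)) ^ 2 ≤
      (Hc m * Cc m ^ 2 * Rx m) * β * D (x * (P * l ^ m)) * Nm G D l m (l ^ 3) v := by
  have h1 := normI hG hK h' hl (m := m) (r := 2) rfl hP hv
  have h2 := normRx hG hK (N := 2 * m + 2) h hx h' hl hβ hb hc hbc hbx (m := m) (r := 2) rfl
    (KP.pow hl 2) hv
  have e2 : l ^ 2 * l = l ^ 3 := by ring
  rw [e2] at h2
  rw [mulD_apply, mulD_apply] at h1
  have e : D (β • x * P * v) = β * D (x * (P * v)) := by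
    have : β • x * P * v = β • (x * (P * v)) := by simp [mul_assoc]
    rw [this, map_smul, smul_eq_mul]
  have n0 : 0 ≤ Nm G (mulD x D) l m (l ^ 2) v :=
    Nm_nonneg hG hK h' hl (r := 2) rfl (KP.pow hl 2) hv
  have hC := Cc_pos m
  have hH := Hc_pos m
  -- positivity of `D (x * (P * l ^ m))`
  have hPK : KP K (m + 2) P := hP.mono (fun x hx => hx.1)
  have n3 : 0 ≤ D (x * (P * l ^ m)) := by
    have hB : KP K (2 * m + 2) (P * l ^ m) := by
      have := hPK.mul (KP.pow hl m)
      have e : m + 2 + m = 2 * m + 2 := by omega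
      rwa [e] at this
    have := (h' 0 (2 * m + 2) (by omega) _ hB l hl 1 hG.one (fun j hj => by omega)).1
    simpa using this
  rw [e, mul_pow]
  calc β ^ 2 * (D (x * (P * v))) ^ 2
      ≤ β ^ 2 * ((Hc m * Cc m ^ 2) * D (x * (P * l ^ m)) * Nm G (mulD x D) l m (l ^ 2) v) :=
        mul_le_mul_of_nonneg_left h1 (by positivity)
    _ = (β * ((Hc m * Cc m ^ 2) * D (x * (P * l ^ m)))) *
        (β * Nm G (mulD x D) l m (l ^ 2) v) := by ring
    _ ≤ (β * ((Hc m * Cc m ^ 2) * D (x * (P * l ^ m)))) * (Rx m * Nm G D l m (l ^ 3) v) :=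
        mul_le_mul_of_nonneg_left h2 (by positivity)
    _ = _ := by ring

end Pool.KD
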